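import Mathlib

/-!
# Expansions with small digits, and small sets of edges
-/

set_option autoImplicit false

namespace Pool.Agent.V8H41.LF

open Finset

/-- Uniqueness of expansions with small digits. -/
theorem digits {ι : Type} [DecidableEq ι] (idx : ι → ℕ) (hidx : Function.Injective idx) (B : ℤ)
    (hB : 0 < B) (c : ι → ℤ) (hc : ∀ q, |c q| < B) (P : Finset ι) :
    ∑ q ∈ P, c q * B ^ idx q = 0 → ∀ q ∈ P, c q = 0 := by
  induction P using Finset.induction_on_min_value idx with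
  | empty => simp
  | insert a s has hmin ih =>
    intro h q hq
    rw [Finset.sum_insert has] at h
    have hd : B ^ (idx a + 1) ∣ ∑ q ∈ s, c q * B ^ idx q := by
      refine Finset.dvd_sum fun x hx => ?_
      refine Dvd.dvd.mul_left (pow_dvd_pow B ?_) _
      have h1 := hmin x hx
      have h2 : idx a ≠ idx x := fun h => has (by rw [hidx h]; exact hx)
      omega
    have hca : c a = 0 := by
      have h1 : B ^ (idx a + 1) ∣ c a * B ^ idx a := by
        have : c a * B ^ idx a = - ∑ q ∈ s, c q * B ^ idx q := by linarith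
        rw [this]
        exact (dvd_neg.2 hd)
      rw [pow_succ, mul_comm (B ^ idx a) B] at h1
      have h2 : B ∣ c a := (mul_dvd_mul_iff_right (pow_ne_zero _ hB.ne')).1 h1
      exact Int.eq_zero_of_abs_lt_dvd h2 (hc a)
    rcases Finset.mem_insert.1 hq with rfl | hq
    · exact hca
    · rw [hca, zero_mul, zero_add] at h
      exact ih h q hq

/-- The number with the digits `g`. -/
noncomputable def num {ι : Type} (idx : ι → ℕ) (B : ℤ) : (ι →₀ ℤ) →ₗ[ℤ] ℤ :=
  Finsupp.linearCombination ℤ (fun q => B ^ idx q)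

theorem num_single {ι : Type} (idx : ι → ℕ) (B : ℤ) (q : ι) (c : ℤ) :
    num idx B (Finsupp.single q c) = c * B ^ idx q := by
  simp [num]

theorem num_eq_zero {ι : Type} (idx : ι → ℕ) (hidx : Function.Injective idx) (B : ℤ)
    (hB : 0 < B) (g : ι →₀ ℤ) (hg : ∀ q, |g q| < B) (h : num idx B g = 0) : g = 0 := by
  classical
  ext q
  by_cases hq : q ∈ g.support
  · refine digits idx hidx B hB g hg g.support ?_ q hq
    simpa [num, Finsupp.linearCombination_apply, Finsupp.sum] using h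
  · simpa using hq

/-- The contribution of an edge `(u, v)` with weight `c` to the vertex `x`. -/
def tm (α β : ℤ) (u v : ℕ) (c : ℤ) (x : ℕ) : ℤ :=
  ((if u = x then α else 0) + (if v = x then β else 0)) * c

section

variable {α β : ℤ}

theorem tm_fst {u v : ℕ} (c : ℤ) (h : v ≠ u) : tm α β u v c u = α * c := by
  unfold tm
  rw [if_pos rfl, if_neg h, add_zero]

theorem tm_snd {u v : ℕ} (c : ℤ) (h : u ≠ v) : tm α β u v c v = β * c := by
  unfold tm
  rw [if_pos rfl, if_neg h, zero_add]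

theorem tm_zero {u v x : ℕ} (c : ℤ) (h : u ≠ x) (h' : v ≠ x) : tm α β u v c x = 0 := by
  unfold tm
  rw [if_neg h, if_neg h', add_zero, zero_mul]

theorem two_edges (hα : α ≠ 0) (hβ : β ≠ 0) {c c' : ℤ} (hc : c ≠ 0) (hc' : c' ≠ 0)
    {u v u' v' : ℕ} (h : u < v) (h' : u' < v') (hne : ¬ (u = u' ∧ v = v')) :
    ∃ x y, x ≠ y ∧ tm α β u v c x + tm α β u' v' c' x ≠ 0 ∧
      tm α β u v c y + tm α β u' v' c' y ≠ 0 := by
  rcases lt_trichotomy u u' with hu | hu | hu
  · rcases lt_trichotomy v v' with hv | hv | hv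
    · refine ⟨u, v', by omega, ?_, ?_⟩
      · rw [tm_fst _ (by omega), tm_zero _ (by omega) (by omega), add_zero]
        exact mul_ne_zero hα hc
      · rw [tm_zero _ (by omega) (by omega), tm_snd _ (by omega), zero_add]
        exact mul_ne_zero hβ hc'
    · refine ⟨u, u', by omega, ?_, ?_⟩
      · rw [tm_fst _ (by omega), tm_zero _ (by omega) (by omega), add_zero]
        exact mul_ne_zero hα hc
      · rw [tm_zero _ (by omega) (by omega), tm_fst _ (by omega), zero_add]
        exact mul_ne_zero hα hc'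
    · refine ⟨u, v, by omega, ?_, ?_⟩
      · rw [tm_fst _ (by omega), tm_zero _ (by omega) (by omega), add_zero]
        exact mul_ne_zero hα hc
      · rw [tm_snd _ (by omega), tm_zero _ (by omega) (by omega), add_zero]
        exact mul_ne_zero hβ hc
  · refine ⟨v, v', by omega, ?_, ?_⟩
    · rw [tm_snd _ (by omega), tm_zero _ (by omega) (by omega), add_zero]
      exact mul_ne_zero hβ hc
    · rw [tm_zero _ (by omega) (by omega), tm_snd _ (by omega), zero_add]
      exact mul_ne_zero hβ hc'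
  · rcases lt_trichotomy v v' with hv | hv | hv
    · refine ⟨u', v', by omega, ?_, ?_⟩
      · rw [tm_zero _ (by omega) (by omega), tm_fst _ (by omega), zero_add]
        exact mul_ne_zero hα hc'
      · rw [tm_zero _ (by omega) (by omega), tm_snd _ (by omega), zero_add]
        exact mul_ne_zero hβ hc'
    · refine ⟨u, u', by omega, ?_, ?_⟩
      · rw [tm_fst _ (by omega), tm_zero _ (by omega) (by omega), add_zero]
        exact mul_ne_zero hα hc
      · rw [tm_zero _ (by omega) (by omega), tm_fst _ (by omega), zero_add]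
        exact mul_ne_zero hα hc'
    · refine ⟨u', v, by omega, ?_, ?_⟩
      · rw [tm_zero _ (by omega) (by omega), tm_fst _ (by omega), zero_add]
        exact mul_ne_zero hα hc'
      · rw [tm_snd _ (by omega), tm_zero _ (by omega) (by omega), add_zero]
        exact mul_ne_zero hβ hc

theorem three_aux (hα : α ≠ 0) (hβ : β ≠ 0) (hs : α + β ≠ 0) {c₁ c₂ c₃ : ℤ} (h1 : c₁ ≠ 0)
    (h2 : c₂ ≠ 0) (h3 : c₃ ≠ 0) {u v₁ v₂ u₃ v₃ : ℕ} (e1 : u < v₁) (e2 : u < v₂) (e3 : u₃ < v₃)
    (hv : v₁ ≠ v₂) (h13 : ¬ (u = u₃ ∧ v₁ = v₃)) (hu : u ≤ u₃)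
    (h : ∀ x, tm α β u v₁ c₁ x + tm α β u v₂ c₂ x + tm α β u₃ v₃ c₃ x = 0) : False := by
  by_cases hu3 : u₃ = u
  · have h4 := h v₁
    rw [tm_snd _ (by omega), tm_zero _ (by omega) (by omega),
      tm_zero _ (by omega) (by omega)] at h4
    exact mul_ne_zero hβ h1 (by linarith)
  · have A := h u
    rw [tm_fst _ (by omega), tm_fst _ (by omega), tm_zero _ (by omega) (by omega)] at A
    have A' : c₁ + c₂ = 0 := by
      have : α * (c₁ + c₂) = 0 := by linarith
      exact (mul_eq_zero.1 this).resolve_left hα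
    have Bq := h u₃
    have C := h v₃
    by_cases hv1 : v₁ = u₃
    · rw [← hv1, tm_snd _ (by omega), tm_zero _ (by omega) (by omega),
        tm_fst _ (by omega)] at Bq
      by_cases hv2 : v₂ = v₃
      · rw [← hv2, tm_zero _ (by omega) (by omega), tm_snd _ (by omega),
          tm_snd _ (by omega)] at C
        have C' : c₂ + c₃ = 0 := by
          have : β * (c₂ + c₃) = 0 := by linarith
          exact (mul_eq_zero.1 this).resolve_left hβ
        have h5 : (α + β) * c₁ = 0 := by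
          have h6 : c₃ = c₁ := by linarith
          rw [h6] at Bq
          linarith
        exact mul_ne_zero hs h1 h5
      · rw [tm_zero _ (by omega) (by omega), tm_zero _ (by omega) (by omega),
          tm_snd _ (by omega)] at C
        exact mul_ne_zero hβ h3 (by linarith)
    · by_cases hv2 : v₂ = u₃
      · rw [← hv2, tm_zero _ (by omega) (by omega), tm_snd _ (by omega),
          tm_fst _ (by omega)] at Bq
        by_cases hv1' : v₁ = v₃
        · rw [← hv1', tm_snd _ (by omega), tm_zero _ (by omega) (by omega),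
            tm_snd _ (by omega)] at C
          have C' : c₁ + c₃ = 0 := by
            have : β * (c₁ + c₃) = 0 := by linarith
            exact (mul_eq_zero.1 this).resolve_left hβ
          have h5 : (α + β) * c₂ = 0 := by
            have h6 : c₃ = c₂ := by linarith
            rw [h6] at Bq
            linarith
          exact mul_ne_zero hs h2 h5
        · rw [tm_zero _ (by omega) (by omega), tm_zero _ (by omega) (by omega),
            tm_snd _ (by omega)] at C
          exact mul_ne_zero hβ h3 (by linarith)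
      · rw [tm_zero _ (by omega) (by omega), tm_zero _ (by omega) (by omega),
          tm_fst _ (by omega)] at Bq
        exact mul_ne_zero hα h3 (by linarith)

theorem three_min (hα : α ≠ 0) (hβ : β ≠ 0) (hs : α + β ≠ 0) {c₁ c₂ c₃ : ℤ} (h1 : c₁ ≠ 0)
    (h2 : c₂ ≠ 0) (h3 : c₃ ≠ 0) {u₁ v₁ u₂ v₂ u₃ v₃ : ℕ} (e1 : u₁ < v₁) (e2 : u₂ < v₂) (e3 : u₃ < v₃)
    (h12 : ¬ (u₁ = u₂ ∧ v₁ = v₂)) (h13 : ¬ (u₁ = u₃ ∧ v₁ = v₃)) (h12' : u₁ ≤ u₂) (h13' : u₁ ≤ u₃)
    (h : ∀ x, tm α β u₁ v₁ c₁ x + tm α β u₂ v₂ c₂ x + tm α β u₃ v₃ c₃ x = 0) : False := by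
  by_cases h4 : u₂ = u₁
  · subst h4
    exact three_aux hα hβ hs h1 h2 h3 e1 e2 e3 (fun h => h12 ⟨rfl, h⟩) h13 h13' h
  · by_cases h5 : u₃ = u₁
    · subst h5
      exact three_aux hα hβ hs h1 h3 h2 e1 e3 e2 (fun h => h13 ⟨rfl, h⟩) h12 h12'
        fun x => by linarith [h x]
    · have A := h u₁
      rw [tm_fst _ (by omega), tm_zero _ (by omega) (by omega),
        tm_zero _ (by omega) (by omega)] at A
      exact mul_ne_zero hα h1 (by linarith)

theorem three_edges (hα : α ≠ 0) (hβ : β ≠ 0) (hs : α + β ≠ 0) {c₁ c₂ c₃ : ℤ} (h1 : c₁ ≠ 0)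
    (h2 : c₂ ≠ 0) (h3 : c₃ ≠ 0) {u₁ v₁ u₂ v₂ u₃ v₃ : ℕ} (e1 : u₁ < v₁) (e2 : u₂ < v₂) (e3 : u₃ < v₃)
    (h12 : ¬ (u₁ = u₂ ∧ v₁ = v₂)) (h13 : ¬ (u₁ = u₃ ∧ v₁ = v₃)) (h23 : ¬ (u₂ = u₃ ∧ v₂ = v₃)) :
    ∃ x, tm α β u₁ v₁ c₁ x + tm α β u₂ v₂ c₂ x + tm α β u₃ v₃ c₃ x ≠ 0 := by
  by_contra hcon
  push Not at hcon
  by_cases h4 : u₁ ≤ u₂ ∧ u₁ ≤ u₃
  · exact three_min hα hβ hs h1 h2 h3 e1 e2 e3 h12 h13 h4.1 h4.2 hcon
  · by_cases h5 : u₂ ≤ u₁ ∧ u₂ ≤ u₃
    · exact three_min hα hβ hs h2 h1 h3 e2 e1 e3 (fun h => h12 ⟨h.1.symm, h.2.symm⟩) h23 h5.1 h5.2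
        fun x => by linarith [hcon x]
    · exact three_min hα hβ hs h3 h1 h2 e3 e1 e2 (fun h => h13 ⟨h.1.symm, h.2.symm⟩)
        (fun h => h23 ⟨h.1.symm, h.2.symm⟩) (by omega) (by omega) fun x => by linarith [hcon x]

end

end Pool.Agent.V8H41.LF
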