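import Mathlib

/-!
# Solution-free sets: definitions
-/

set_option autoImplicit false

namespace Pool.Agent.V8H41.LF

/-- The set `A` contains no solution of the equation `∑ i, a i * x i = 0` (the values of the unknowns
need not be different). -/
def Free {k : ℕ} (a : Fin k → ℤ) (A : Finset ℤ) : Prop :=
  ¬ ∃ x : Fin k → ℤ, (∀ i, x i ∈ A) ∧ ∑ i, a i * x i = 0

open Classical in
/-- The largest size of a solution-free subset of `A`. -/
noncomputable def maxFree {k : ℕ} (a : Fin k → ℤ) (A : Finset ℤ) : ℕ :=
  (A.powerset.filter fun S => Free a S).sup Finset.card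

/-- The infimum of `maxFree a A / |A|` over all nonempty finite sets `A` of nonzero integers. -/
noncomputable def kappa {k : ℕ} (a : Fin k → ℤ) : ℝ :=
  sInf {r | ∃ A : Finset ℤ, A.Nonempty ∧ 0 ∉ A ∧ r = maxFree a A / A.card}

end Pool.Agent.V8H41.LF
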