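import Pool.Agent.V8H41.LF.Inst

/-!
# Vertex covers and solution-free subsets of the constructed set
-/

set_option autoImplicit false

namespace Pool.Agent.V8H41.LF

open Finset

variable {k : ℕ}

/-- The data of the reduction which do not depend on the graph: the equation, a set `D` with a largest
solution-free subset `SD`, the numbers `g`, `q` with `1 - ε = g / q`. -/
structure Par (k : ℕ) where
  L : Co k
  hk : 3 ≤ k
  D : Finset ℤ
  SD : Finset ℤ
  hD0 : 0 ∉ D
  hSD : SD ⊆ D
  hfree : Free L.a SD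
  hmax : ∀ S ⊆ D, Free L.a S → S.card ≤ SD.card
  M : ℤ
  B : ℤ
  hM : ∀ z ∈ D, |z| ≤ M
  hM0 : 0 ≤ M
  hB : L.S * (L.S + M) < B
  g : ℕ
  q : ℕ
  Δ : ℕ
  hg : 0 < g
  hgq : g ≤ q
  hΔ : q * (D.card - SD.card) = g * D.card + Δ + 1

variable (P : Par k)

/-- `|V| + (k - 2) |E|` -/
def Par.N₀ (_P : Par k) (n m : ℕ) : ℕ := n + m * (k - 2)

/-- The number of additional isolated vertices. -/
def Par.r (n m K : ℕ) : ℕ := P.N₀ n m * P.Δ + (P.q * K + P.g - 1) / P.g

/-- The number of copies of `D`. -/
def Par.T (n m : ℕ) : ℕ := P.g * P.N₀ n m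

/-- The elements. -/
noncomputable def Par.els (n : ℕ) (es : List (ℕ × ℕ)) (K : ℕ) : List (El k) :=
  LF.els P.L P.D (n + P.r n es.length K) (P.T n es.length) es

/-- The constructed set, as a list. -/
noncomputable def Par.list (n : ℕ) (es : List (ℕ × ℕ)) (K : ℕ) : List ℤ :=
  (P.els n es K).map (val P.L P.B)

theorem Par.length_list (n : ℕ) (es : List (ℕ × ℕ)) (K : ℕ) : (P.list n es K).length =
    P.N₀ n es.length + P.r n es.length K + P.T n es.length * P.D.card := by
  rw [Par.list, List.length_map, Par.els, length_els, Par.N₀]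
  omega

theorem Par.ident (n m K : ℕ) :
    P.g * (P.N₀ n m + P.r n m K + P.T n m * P.D.card) =
      P.q * (P.T n m * (P.D.card - P.SD.card)) + P.g * ((P.q * K + P.g - 1) / P.g) := by
  have h : P.q * (P.T n m * (P.D.card - P.SD.card)) = P.T n m * (P.g * P.D.card + P.Δ + 1) := by
    rw [← P.hΔ]
    ring
  rw [h, Par.r, Par.T]
  ring

theorem Par.ceil_bounds (K : ℕ) : P.q * K ≤ P.g * ((P.q * K + P.g - 1) / P.g) ∧
    P.g * ((P.q * K + P.g - 1) / P.g) < P.q * K + P.q := by
  have h1 := Nat.lt_mul_div_succ (P.q * K + P.g - 1) P.hg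
  have h2 := Nat.mul_div_le (P.q * K + P.g - 1) P.g
  have h3 := P.hg
  have h4 := P.hgq
  rw [Nat.mul_add, Nat.mul_one] at h1
  constructor <;> omega

theorem Par.I1 (n m K : ℕ) : P.q * (K + P.T n m * (P.D.card - P.SD.card)) ≤
    P.g * (P.N₀ n m + P.r n m K + P.T n m * P.D.card) := by
  rw [P.ident, Nat.mul_add]
  have := (P.ceil_bounds K).1
  omega

theorem Par.I2 (n m K : ℕ) : P.g * (P.N₀ n m + P.r n m K + P.T n m * P.D.card) <
    P.q * (K + P.T n m * (P.D.card - P.SD.card) + 1) := by
  rw [P.ident, Nat.mul_add, Nat.mul_add, Nat.mul_one]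
  have := (P.ceil_bounds K).2
  omega

section

variable {P} {n : ℕ} {es : List (ℕ × ℕ)} {K : ℕ}

theorem Par.mem_els (x : El k) : x ∈ P.els n es K ↔ (∃ i < n + P.r n es.length K, x = .v i) ∨
    (∃ e ∈ es, ∃ j ∈ P.L.J, x = .p e j) ∨ ∃ t < P.T n es.length, ∃ z ∈ P.D, x = .d t z :=
  LF.mem_els P.L x

theorem Par.valid {x : El k} (hx : x ∈ P.els n es K) : Valid P.L es.toFinset P.M x := by
  rcases (Par.mem_els x).1 hx with ⟨i, -, rfl⟩ | ⟨e, he, j, hj, rfl⟩ | ⟨t, -, z, hz, rfl⟩
  · trivial
  · exact ⟨List.mem_toFinset.2 he, hj⟩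
  · exact P.hM z hz

theorem Par.ne0 {x : El k} (hx : x ∈ P.els n es K) : ∀ t z, x = .d t z → z ≠ 0 := by
  rintro t z rfl
  rcases (Par.mem_els _).1 hx with ⟨i, -, h⟩ | ⟨e, he, j, hj, h⟩ | ⟨t, -, z, hz, h⟩
  · cases h
  · cases h
  · injection h with h1 h2
    subst h2
    rintro rfl
    exact P.hD0 hz

theorem Par.injOn (hes : ∀ e ∈ es, e.1 < e.2) :
    ∀ x ∈ P.els n es K, ∀ y ∈ P.els n es K, val P.L P.B x = val P.L P.B y → x = y :=
  fun _ hx _ hy h => val_inj P.hk P.hM0 P.hB (fun e he => hes e (List.mem_toFinset.1 he))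
    (Par.valid hx) (Par.valid hy) (Par.ne0 hx) h

theorem Par.nodup (hes : ∀ e ∈ es, e.1 < e.2) (hnd : es.Nodup) : (P.list n es K).Nodup :=
  List.Nodup.map_on (Par.injOn hes) (nodup_els P.L hnd)

theorem Par.zero_notMem (hes : ∀ e ∈ es, e.1 < e.2) : 0 ∉ P.list n es K := by
  intro h
  obtain ⟨x, hx, h⟩ := List.mem_map.1 h
  exact val_ne_zero P.hk P.hM0 P.hB (fun e he => hes e (List.mem_toFinset.1 he))
    (Par.valid hx) (Par.ne0 hx) h

/-- A vertex cover gives a solution-free subset. -/
theorem Par.fwd (hes : ∀ e ∈ es, e.1 < e.2) (hnd : es.Nodup) (Sv : Finset ℕ)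
    (hcov : ∀ e ∈ es, e.1 ∈ Sv ∨ e.2 ∈ Sv) (hcard : Sv.card ≤ K) :
    ∃ S : Finset ℤ, S ⊆ (P.list n es K).toFinset ∧ Free P.L.a S ∧
      P.q * (P.list n es K).length ≤ P.q * S.card + P.g * (P.list n es K).length := by
  classical
  set G : El k → Prop := fun x => match x with
    | .v i => i ∉ Sv
    | .p _ _ => True
    | .d _ z => z ∈ P.SD with hG
  set A : Finset (El k) := (P.els n es K).toFinset with hA
  have hAcard : A.card = (P.list n es K).length := by
    rw [hA, List.toFinset_card_of_nodup (show (P.els n es K).Nodup from nodup_els P.L hnd), Par.list, List.length_map]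
  refine ⟨(A.filter G).image (val P.L P.B), ?_, ?_, ?_⟩
  · intro z hz
    obtain ⟨x, hx, rfl⟩ := Finset.mem_image.1 hz
    rw [List.mem_toFinset]
    exact List.mem_map_of_mem (List.mem_toFinset.1 (Finset.mem_filter.1 hx).1)
  · rintro ⟨y, hy, h0⟩
    choose x hx hxy using fun i => Finset.mem_image.1 (hy i)
    have hx' : ∀ i, x i ∈ P.els n es K := fun i =>
      List.mem_toFinset.1 (Finset.mem_filter.1 (hx i)).1
    have hg' : ∀ i, G (x i) := fun i => (Finset.mem_filter.1 (hx i)).2
    rcases key (L := P.L) (E := es.toFinset) P.hM0 P.hB (fun i => Par.valid (hx' i)) (by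
      simpa only [hxy] using h0) P.hk (fun e he => hes e (List.mem_toFinset.1 he)) with
      ⟨e, he, ⟨i, hi⟩, ⟨i', hi'⟩⟩ | ⟨y', hy', h1⟩
    · have h2 := hg' i
      have h3 := hg' i'
      rw [hi] at h2
      rw [hi'] at h3
      rcases hcov e (List.mem_toFinset.1 he) with h | h
      · exact h2 h
      · exact h3 h
    · refine P.hfree ⟨y', fun i => ?_, h1⟩
      obtain ⟨t, i', hi'⟩ := hy' i
      have h2 := hg' i'
      rw [hi'] at h2
      exact h2
  · have h1 : ((A.filter G).image (val P.L P.B)).card = (A.filter G).card := by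
      refine Finset.card_image_of_injOn fun x hx y hy h => ?_
      exact Par.injOn hes x (List.mem_toFinset.1 (Finset.mem_filter.1 hx).1) y
        (List.mem_toFinset.1 (Finset.mem_filter.1 hy).1) h
    have h2 : (A.filter fun x => ¬ G x).card ≤ K + P.T n es.length * (P.D.card - P.SD.card) := by
      have h3 : (A.filter fun x => ¬ G x) ⊆ Sv.image El.v ∪
          ((Finset.range (P.T n es.length)) ×ˢ (P.D \ P.SD)).image (fun q => El.d q.1 q.2) := by
        intro x hx
        obtain ⟨h4, h5⟩ := Finset.mem_filter.1 hx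
        rcases (Par.mem_els x).1 (List.mem_toFinset.1 h4) with
          ⟨i, -, rfl⟩ | ⟨e, he, j, hj, rfl⟩ | ⟨t, ht, z, hz, rfl⟩
        · refine Finset.mem_union_left _ (Finset.mem_image_of_mem _ ?_)
          by_contra h
          exact h5 h
        · exact absurd trivial h5
        · refine Finset.mem_union_right _ (Finset.mem_image.2 ⟨(t, z), ?_, rfl⟩)
          exact Finset.mem_product.2 ⟨Finset.mem_range.2 ht, Finset.mem_sdiff.2 ⟨hz, h5⟩⟩
      refine (Finset.card_le_card h3).trans ((Finset.card_union_le _ _).trans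
        (Nat.add_le_add (Finset.card_image_le.trans hcard) (Finset.card_image_le.trans ?_)))
      rw [Finset.card_product, Finset.card_range, Finset.card_sdiff_of_subset P.hSD]
    have h3 := Finset.card_filter_add_card_filter_not (s := A) G
    rw [hAcard] at h3
    rw [h1]
    have h4 := P.I1 n es.length K
    rw [← P.length_list] at h4
    have h5 : P.q * (P.list n es K).length = P.q * (A.filter G).card +
        P.q * (A.filter fun x => ¬ G x).card := by
      rw [← h3]
      ring
    rw [h5]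
    exact Nat.add_le_add_left ((Nat.mul_le_mul_left _ h2).trans h4) _

/-- A large solution-free subset gives a vertex cover. -/
theorem Par.bwd (hes : ∀ e ∈ es, e.1 < e.2 ∧ e.2 < n) (hnd : es.Nodup) (S : Finset ℤ)
    (hS : S ⊆ (P.list n es K).toFinset) (hfree : Free P.L.a S)
    (hcard : P.q * (P.list n es K).length ≤ P.q * S.card + P.g * (P.list n es K).length) :
    ∃ Sv : Finset ℕ, (∀ x ∈ Sv, x < n) ∧ (∀ e ∈ es, e.1 ∈ Sv ∨ e.2 ∈ Sv) ∧ Sv.card ≤ K := by
  classical
  set A : Finset (El k) := (P.els n es K).toFinset with hA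
  set v : El k → ℤ := val P.L P.B with hv
  have hinj := Par.injOn (P := P) (n := n) (K := K) fun e he => (hes e he).1
  have hAcard : A.card = (P.list n es K).length := by
    rw [hA, List.toFinset_card_of_nodup (show (P.els n es K).Nodup from nodup_els P.L hnd), Par.list, List.length_map]
  have hScard : (A.filter fun x => v x ∈ S).card = S.card := by
    rw [← Finset.card_image_of_injOn (f := v) (s := A.filter fun x => v x ∈ S)
      (fun x hx y hy h => hinj x (List.mem_toFinset.1 (Finset.mem_filter.1 hx).1) y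
        (List.mem_toFinset.1 (Finset.mem_filter.1 hy).1) h)]
    congr 1
    ext z
    constructor
    · intro hz
      obtain ⟨x, hx, rfl⟩ := Finset.mem_image.1 hz
      exact (Finset.mem_filter.1 hx).2
    · intro hz
      obtain ⟨x, hx, h⟩ := List.mem_map.1 (List.mem_toFinset.1 (hS hz))
      exact Finset.mem_image.2 ⟨x, Finset.mem_filter.2 ⟨List.mem_toFinset.2 hx, by
        rw [hv]; rw [h]; exact hz⟩, h⟩
  -- the missing elements
  set Mi : Finset (El k) := A.filter fun x => ¬ v x ∈ S with hMi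
  have h1 := Finset.card_filter_add_card_filter_not (s := A) fun x => v x ∈ S
  rw [hAcard, hScard, ← hMi] at h1
  have h2 : Mi.card ≤ K + P.T n es.length * (P.D.card - P.SD.card) := by
    have h3 := P.I2 n es.length K
    rw [← P.length_list] at h3
    have h4 : P.q * (P.list n es K).length = P.q * S.card + P.q * Mi.card := by
      rw [← h1]
      ring
    rw [h4] at hcard
    have h5 : P.q * Mi.card < P.q * (K + P.T n es.length * (P.D.card - P.SD.card) + 1) := by
      omega
    have h6 := Nat.lt_of_mul_lt_mul_left h5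
    omega
  -- missing elements in the copies
  set Mt : ℕ → Finset ℤ := fun t => P.D.filter fun z => ¬ v (.d t z) ∈ S with hMt
  have h3 : ∀ t, P.D.card - P.SD.card ≤ (Mt t).card := by
    intro t
    have h4 := P.hmax (P.D.filter fun z => v (.d t z) ∈ S) (Finset.filter_subset _ _) (by
      rintro ⟨y, hy, h0⟩
      refine hfree ⟨fun i => v (.d t (y i)), fun i => (Finset.mem_filter.1 (hy i)).2, ?_⟩
      have h5 : ∀ i, P.L.a i * v (.d t (y i)) = (P.L.a i * y i) * P.B ^ (3 * t + 2) := by
        intro i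
        rw [hv, val_d]
        ring
      simp only [h5]
      rw [← Finset.sum_mul, h0, zero_mul])
    have h5 := Finset.card_filter_add_card_filter_not (s := P.D) fun z => v (.d t z) ∈ S
    have h6 : (Mt t).card = (P.D.filter fun z => ¬ v (.d t z) ∈ S).card := rfl
    omega
  set Md : Finset (El k) := (Finset.range (P.T n es.length)).biUnion
    fun t => (Mt t).image (El.d t) with hMd
  have h4 : P.T n es.length * (P.D.card - P.SD.card) ≤ Md.card := by
    rw [hMd, Finset.card_biUnion]
    · rw [← Finset.card_range (P.T n es.length), ← smul_eq_mul, Finset.card_range]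
      conv_lhs => rw [← Finset.card_range (P.T n es.length)]
      rw [smul_eq_mul, ← smul_eq_mul]
      refine Finset.card_nsmul_le_sum _ _ _ fun t _ => ?_
      rw [Finset.card_image_of_injective _ (fun z z' h => by injection h)]
      exact h3 t
    · intro t _ t' _ hne
      change Disjoint ((Mt t).image (El.d t)) ((Mt t').image (El.d t'))
      rw [Finset.disjoint_left]
      intro x hx hx'
      obtain ⟨z, -, rfl⟩ := Finset.mem_image.1 hx
      obtain ⟨z', -, h⟩ := Finset.mem_image.1 hx'
      injection h with h h'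
      exact hne h.symm
  set Mr : Finset (El k) := Mi.filter fun x => isD x = false with hMr
  have h5 : Md.card + Mr.card ≤ Mi.card := by
    rw [← Finset.card_union_of_disjoint]
    · refine Finset.card_le_card (Finset.union_subset ?_ (Finset.filter_subset _ _))
      intro x hx
      obtain ⟨t, ht, hx⟩ := Finset.mem_biUnion.1 hx
      obtain ⟨z, hz, rfl⟩ := Finset.mem_image.1 hx
      obtain ⟨hz1, hz2⟩ := Finset.mem_filter.1 hz
      refine Finset.mem_filter.2 ⟨List.mem_toFinset.2 ((Par.mem_els _).2 (Or.inr (Or.inr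
        ⟨t, Finset.mem_range.1 ht, z, hz1, rfl⟩))), hz2⟩
    · rw [Finset.disjoint_left]
      intro x hx hx'
      obtain ⟨t, ht, hx⟩ := Finset.mem_biUnion.1 hx
      obtain ⟨z, hz, rfl⟩ := Finset.mem_image.1 hx
      have := (Finset.mem_filter.1 hx').2
      simp [isD] at this
  have h6 : Mr.card ≤ K := by omega
  -- the cover
  set f : El k → ℕ := fun x => match x with
    | .v i => i
    | .p e _ => e.1
    | .d _ _ => 0 with hf
  refine ⟨(Mr.image f).filter fun i => i < n, fun x hx => (Finset.mem_filter.1 hx).2,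
    fun e he => ?_, (Finset.card_filter_le _ _).trans (Finset.card_image_le.trans h6)⟩
  obtain ⟨he1, he2⟩ := hes e he
  have h7 : ∃ i, ¬ v (edgeEl P.L e i) ∈ S := by
    by_contra hcon
    push Not at hcon
    exact hfree ⟨fun i => v (edgeEl P.L e i), hcon, edge_sol P.L P.B e⟩
  obtain ⟨i, hi⟩ := h7
  have h8 : ∀ x : El k, x ∈ P.els n es K → ¬ v x ∈ S → isD x = false → x ∈ Mr := fun x hx h h' =>
    Finset.mem_filter.2 ⟨Finset.mem_filter.2 ⟨List.mem_toFinset.2 hx, h⟩, h'⟩
  by_cases hi0 : i = P.L.i₀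
  · left
    have h9 : edgeEl P.L e i = .v e.1 := by rw [edgeEl, if_pos hi0]
    rw [h9] at hi
    refine Finset.mem_filter.2 ⟨Finset.mem_image.2 ⟨.v e.1, h8 _ ?_ hi rfl, rfl⟩, by omega⟩
    exact (Par.mem_els _).2 (Or.inl ⟨e.1, by omega, rfl⟩)
  · by_cases hi1 : i = P.L.i₁
    · right
      have h9 : edgeEl P.L e i = .v e.2 := by rw [edgeEl, if_neg hi0, if_pos hi1]
      rw [h9] at hi
      refine Finset.mem_filter.2 ⟨Finset.mem_image.2 ⟨.v e.2, h8 _ ?_ hi rfl, rfl⟩, by omega⟩
      exact (Par.mem_els _).2 (Or.inl ⟨e.2, by omega, rfl⟩)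
    · left
      have h9 : edgeEl P.L e i = .p e i := by rw [edgeEl, if_neg hi0, if_neg hi1]
      rw [h9] at hi
      refine Finset.mem_filter.2 ⟨Finset.mem_image.2 ⟨.p e i, h8 _ ?_ hi rfl, rfl⟩, by omega⟩
      exact (Par.mem_els _).2 (Or.inr (Or.inl ⟨e, he, i, (P.L.mem_J i).2 ⟨hi1, hi0⟩, rfl⟩))

end

end Pool.Agent.V8H41.LF
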