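import Pool.Agent.V8H41.LF.Key
import Pool.Agent.V8H41.LF.Defs

/-!
# The constructed set
-/

set_option autoImplicit false

namespace Pool.Agent.V8H41.LF

open Finset

variable {k : ℕ} (L : Co k)

theorem Co.i₂_mem : L.i₂ ∈ L.J := (L.mem_J _).2 ⟨L.h12.symm, L.h02.symm⟩

theorem Co.S_nonneg : 0 ≤ L.S := Finset.sum_nonneg fun _ _ => abs_nonneg _

/-- The list of the elements. -/
noncomputable def els (D : Finset ℤ) (n T : ℕ) (es : List (ℕ × ℕ)) : List (El k) :=
  (List.range n).map El.v ++ (es.flatMap (fun e => L.J.toList.map (El.p e)) ++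
    (List.range T).flatMap (fun t => D.toList.map (El.d t)))

theorem mem_els {D : Finset ℤ} {n T : ℕ} {es : List (ℕ × ℕ)} (x : El k) :
    x ∈ els L D n T es ↔ (∃ i < n, x = .v i) ∨ (∃ e ∈ es, ∃ j ∈ L.J, x = .p e j) ∨
      ∃ t < T, ∃ z ∈ D, x = .d t z := by
  simp only [els, List.mem_append, List.mem_map, List.mem_range, List.mem_flatMap,
    Finset.mem_toList]
  constructor
  · rintro (⟨i, h, rfl⟩ | ⟨e, he, j, hj, rfl⟩ | ⟨t, ht, z, hz, rfl⟩)
    · exact Or.inl ⟨i, h, rfl⟩
    · exact Or.inr (Or.inl ⟨e, he, j, hj, rfl⟩)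
    · exact Or.inr (Or.inr ⟨t, ht, z, hz, rfl⟩)
  · rintro (⟨i, h, rfl⟩ | ⟨e, he, j, hj, rfl⟩ | ⟨t, ht, z, hz, rfl⟩)
    · exact Or.inl ⟨i, h, rfl⟩
    · exact Or.inr (Or.inl ⟨e, he, j, hj, rfl⟩)
    · exact Or.inr (Or.inr ⟨t, ht, z, hz, rfl⟩)

theorem nodup_els {D : Finset ℤ} {n T : ℕ} {es : List (ℕ × ℕ)} (hes : es.Nodup) :
    (els L D n T es).Nodup := by
  unfold els
  rw [List.nodup_append, List.nodup_append]
  refine ⟨?_, ⟨?_, ?_, ?_⟩, ?_⟩
  · exact List.nodup_range.map fun i j h => by injection h
  · rw [List.nodup_flatMap]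
    refine ⟨fun e _ => (Finset.nodup_toList _).map fun i j h => by injection h, ?_⟩
    refine hes.imp ?_
    intro e e' hne
    simp only [Function.onFun]
    intro x hx hx'
    obtain ⟨j, -, rfl⟩ := List.mem_map.1 hx
    obtain ⟨j', -, h⟩ := List.mem_map.1 hx'
    injection h with h h'
    exact hne h.symm
  · rw [List.nodup_flatMap]
    refine ⟨fun e _ => (Finset.nodup_toList _).map fun i j h => by injection h, ?_⟩
    refine List.nodup_range.imp ?_
    intro e e' hne
    simp only [Function.onFun]
    intro x hx hx'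
    obtain ⟨j, -, rfl⟩ := List.mem_map.1 hx
    obtain ⟨j', -, h⟩ := List.mem_map.1 hx'
    injection h with h h'
    exact hne h.symm
  · intro x hx y hy hxy
    subst hxy
    obtain ⟨e, -, hx⟩ := List.mem_flatMap.1 hx
    obtain ⟨j, -, rfl⟩ := List.mem_map.1 hx
    obtain ⟨t, -, hy⟩ := List.mem_flatMap.1 hy
    obtain ⟨z, -, h⟩ := List.mem_map.1 hy
    cases h
  · intro x hx y hy hxy
    subst hxy
    obtain ⟨i, -, rfl⟩ := List.mem_map.1 hx
    rcases List.mem_append.1 hy with hy | hy
    · obtain ⟨e, -, hx⟩ := List.mem_flatMap.1 hy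
      obtain ⟨j, -, h⟩ := List.mem_map.1 hx
      cases h
    · obtain ⟨t, -, hy⟩ := List.mem_flatMap.1 hy
      obtain ⟨z, -, h⟩ := List.mem_map.1 hy
      cases h

theorem length_els {D : Finset ℤ} {n T : ℕ} {es : List (ℕ × ℕ)} :
    (els L D n T es).length = n + (es.length * (k - 2) + T * D.card) := by
  simp [els, List.length_flatMap, L.card_J]

section

variable {L}
variable {E : Finset (ℕ × ℕ)} {M : ℤ}

theorem vec_inj (hlt : ∀ e ∈ E, e.1 < e.2) {x y : El k} (hx : Valid L E M x) (hy : Valid L E M y)
    (hx0 : ∀ t z, x = .d t z → z ≠ 0) (h : vec L x = vec L y) : x = y := by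
  have hh : ∀ q, vec L x q = vec L y q := fun q => by rw [h]
  cases x with
  | v i =>
    cases y with
    | v i' =>
      have h1 := hh (.v i)
      simp only [vec, Finsupp.single_apply, if_true] at h1
      by_cases hi : i' = i
      · rw [hi]
      · rw [if_neg] at h1
        · exact absurd h1 (L.ha _)
        · intro h2
          injection h2 with h2
          exact hi h2
    | p e j =>
      by_cases hj : j = L.i₂
      · have he := hlt e hy.1
        have h1 := hh (.v e.1)
        have h2 := hh (.v e.2)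
        subst hj
        simp [vec, Finsupp.single_apply, he.ne, he.ne'] at h1 h2
        have h3 : i = e.1 := by
          by_contra h
          rw [if_neg h] at h1
          exact L.ha L.i₀ (by linarith)
        have h4 : i = e.2 := by
          by_contra h
          rw [if_neg h] at h2
          exact L.ha L.i₁ (by linarith)
        omega
      · have h1 := hh (.v i)
        simp [vec, hj] at h1
        exact absurd h1 (L.ha _)
    | d t z =>
      have h1 := hh (.v i)
      simp [vec] at h1
      exact absurd h1 (L.ha _)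
  | p e j =>
    have he := hlt e hx.1
    by_cases hj : j = L.i₂
    · subst hj
      cases y with
      | v i' =>
        have h1 := hh (.v e.1)
        have h2 := hh (.v e.2)
        simp [vec, Finsupp.single_apply, he.ne, he.ne'] at h1 h2
        have h3 : i' = e.1 := by
          by_contra h
          rw [if_neg h] at h1
          exact L.ha L.i₀ (by linarith)
        have h4 : i' = e.2 := by
          by_contra h
          rw [if_neg h] at h2
          exact L.ha L.i₁ (by linarith)
        omega
      | p e' j' =>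
        by_cases hj' : j' = L.i₂
        · subst hj'
          by_contra hne
          have hne' : ¬ (e.1 = e'.1 ∧ e.2 = e'.2) := fun h => hne (by rw [Prod.ext h.1 h.2])
          obtain ⟨v, -, -, h1, -⟩ := two_edges (L.ha L.i₀) (L.ha L.i₁) (c := 1) (c' := -1)
            one_ne_zero (by norm_num) he (hlt e' hy.1) hne'
          apply h1
          have h2 := hh (.v v)
          simp [vec, Finsupp.single_apply] at h2
          unfold tm
          linarith
        · have h1 := hh (.v e.1)
          simp [vec, Finsupp.single_apply, he.ne, he.ne', hj'] at h1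
          exact absurd h1 (L.ha _)
      | d t z =>
        have h1 := hh (.v e.1)
        simp [vec, Finsupp.single_apply, he.ne, he.ne'] at h1
        exact absurd h1 (L.ha _)
    · have h1 := hh (.p e j)
      rw [vec_p L e j hx.2 hj, vec_p L e j hx.2 hj, if_pos rfl, if_neg (by
        intro h
        injection h with h h'
        exact hj h')] at h1
      by_cases hy1 : y = .p e j
      · exact hy1.symm
      · rw [if_neg hy1] at h1
        by_cases hy2 : y = .p e L.i₂
        · subst hy2
          have h2 := hh (.v e.1)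
          simp [vec, Finsupp.single_apply, he.ne, he.ne', hj] at h2
          exact absurd h2 (L.ha _)
        · rw [if_neg hy2] at h1
          simp at h1
          exact absurd h1 (L.ha _)
  | d t z =>
    have h1 := hh (.d t)
    rw [vec_d, vec_d] at h1
    simp only [dz, if_true] at h1
    have hz := hx0 t z rfl
    cases y with
    | v i' => exact absurd h1 hz
    | p e j => exact absurd h1 hz
    | d t' z' =>
      simp only at h1
      by_cases ht : t' = t
      · rw [if_pos ht] at h1
        rw [ht, h1]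
      · rw [if_neg ht] at h1
        exact absurd h1 hz

theorem vec_ne_zero (hlt : ∀ e ∈ E, e.1 < e.2) {x : El k} (hx : Valid L E M x)
    (hx0 : ∀ t z, x = .d t z → z ≠ 0) : vec L x ≠ 0 := by
  intro h
  have hh : ∀ q, vec L x q = 0 := fun q => by rw [h]; rfl
  cases x with
  | v i =>
    have h1 := hh (.v i)
    simp [vec] at h1
    exact absurd h1 (L.ha _)
  | p e j =>
    have he := hlt e hx.1
    by_cases hj : j = L.i₂
    · subst hj
      have h1 := hh (.v e.1)
      simp [vec, Finsupp.single_apply, he.ne'] at h1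
      exact absurd h1 (L.ha _)
    · have h1 := hh (.p e j)
      simp [vec, hj] at h1
      exact absurd h1 (L.ha _)
  | d t z =>
    have h1 := hh (.d t)
    simp [vec] at h1
    exact hx0 t z rfl h1

theorem Co.three_le_S (hk : 3 ≤ k) : 3 ≤ L.S := by
  have h1 : ∀ i, 1 ≤ |L.a i| := fun i => Int.one_le_abs (L.ha i)
  have h2 : ∑ _i : Fin k, (1 : ℤ) ≤ L.S := Finset.sum_le_sum fun i _ => h1 i
  simp at h2
  have h3 : (3 : ℤ) ≤ k := by exact_mod_cast hk
  linarith

variable {B : ℤ}

theorem two_lt (hk : 3 ≤ k) (hM : 0 ≤ M) (hB : L.S * (L.S + M) < B) : 2 * (L.S + M) < B := by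
  have h1 := Co.three_le_S (L := L) hk
  nlinarith

theorem val_inj (hk : 3 ≤ k) (hM : 0 ≤ M) (hB : L.S * (L.S + M) < B) (hlt : ∀ e ∈ E, e.1 < e.2)
    {x y : El k} (hx : Valid L E M x) (hy : Valid L E M y)
    (hx0 : ∀ t z, x = .d t z → z ≠ 0) (h : val L B x = val L B y) : x = y := by
  refine vec_inj hlt hx hy hx0 ?_
  have h2 := two_lt hk hM hB
  have hS := L.S_nonneg
  rw [← sub_eq_zero]
  refine num_eq_zero idx idx_inj B (by linarith) _ (fun q => ?_) ?_
  · rw [Finsupp.sub_apply]
    have h3 := vec_le L hM x hx q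
    have h4 := vec_le L hM y hy q
    have h5 := abs_sub (vec L x q) (vec L y q)
    linarith
  · rw [map_sub]
    exact sub_eq_zero.2 h

theorem val_ne_zero (hk : 3 ≤ k) (hM : 0 ≤ M) (hB : L.S * (L.S + M) < B)
    (hlt : ∀ e ∈ E, e.1 < e.2) {x : El k} (hx : Valid L E M x)
    (hx0 : ∀ t z, x = .d t z → z ≠ 0) : val L B x ≠ 0 := by
  intro h
  refine vec_ne_zero hlt hx hx0 ?_
  have h2 := two_lt hk hM hB
  have hS := L.S_nonneg
  refine num_eq_zero idx idx_inj B (by linarith) _ (fun q => ?_) h
  have h3 := vec_le L hM x hx q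
  linarith

/-- the elements of an edge -/
def edgeEl (L : Co k) (e : ℕ × ℕ) (i : Fin k) : El k :=
  if i = L.i₀ then .v e.1 else if i = L.i₁ then .v e.2 else .p e i

/-- The elements of an edge form a solution. -/
theorem edge_sol (L : Co k) (B : ℤ) (e : ℕ × ℕ) : ∑ i, L.a i * val L B (edgeEl L e i) = 0 := by
  have h1 : ∑ i, L.a i • vec L (edgeEl L e i) = 0 := by
    rw [← Finset.add_sum_erase _ _ (Finset.mem_univ L.i₀),
      ← Finset.add_sum_erase _ _ (Finset.mem_erase.2 ⟨L.h01.symm, Finset.mem_univ L.i₁⟩)]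
    have h2 : ∑ i ∈ (Finset.univ.erase L.i₀).erase L.i₁, L.a i • vec L (edgeEl L e i) =
        L.a L.i₂ • vec L (.p e L.i₂) +
          ∑ j ∈ L.J.erase L.i₂, L.a j • Finsupp.single (Pos.p e j) (L.a L.i₂) := by
      have h3 := Finset.add_sum_erase L.J (fun i => L.a i • vec L (edgeEl L e i)) L.i₂_mem
      change ∑ i ∈ L.J, L.a i • vec L (edgeEl L e i) = _
      rw [← h3]
      congr 1
      · simp only [edgeEl]
        rw [if_neg L.h02.symm, if_neg L.h12.symm]
      · refine Finset.sum_congr rfl fun j hj => ?_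
        obtain ⟨h4, h5⟩ := Finset.mem_erase.1 hj
        obtain ⟨h6, h7⟩ := (L.mem_J j).1 h5
        simp only [edgeEl]
        rw [if_neg h7, if_neg h6]
        simp only [vec, if_neg h4]
    rw [h2]
    simp only [edgeEl, if_true, if_neg L.h01.symm, vec]
    ext q
    simp only [Finsupp.coe_add, Finsupp.coe_smul, Finsupp.coe_neg, Finsupp.coe_finsetSum,
      Pi.add_apply, Pi.smul_apply, Pi.neg_apply, Finset.sum_apply, smul_eq_mul,
      Finsupp.single_apply, Finsupp.coe_zero, Pi.zero_apply, mul_add, mul_neg, Finset.mul_sum]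
    have h3 : ∑ j ∈ L.J.erase L.i₂, L.a j * (if Pos.p e j = q then L.a L.i₂ else 0) =
        ∑ j ∈ L.J.erase L.i₂, L.a L.i₂ * (if Pos.p e j = q then L.a j else 0) := by
      refine Finset.sum_congr rfl fun j _ => ?_
      split_ifs <;> ring
    rw [h3]
    split_ifs <;> ring
  have h2 := congrArg (num idx B) h1
  rw [map_sum, map_zero] at h2
  rw [← h2]
  refine Finset.sum_congr rfl fun i _ => ?_
  simp [val]

theorem val_d (L : Co k) (B : ℤ) (t : ℕ) (z : ℤ) : val L B (.d t z) = z * B ^ (3 * t + 2) := by
  simp [val, vec, num_single, idx]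

end

end Pool.Agent.V8H41.LF
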