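import Pool.Agent.V8H41.LF.Alg

/-!
# The elements of the constructed set, and the solutions of the equation in them
-/

set_option autoImplicit false

namespace Pool.Agent.V8H41.LF

open Finset

/-- The equation, with three different places. -/
structure Co (k : ℕ) where
  a : Fin k → ℤ
  i₀ : Fin k
  i₁ : Fin k
  i₂ : Fin k
  h01 : i₀ ≠ i₁
  h02 : i₀ ≠ i₂
  h12 : i₁ ≠ i₂
  ha : ∀ i, a i ≠ 0
  hsum : ∑ i, a i ≠ 0
  hpair : a i₀ + a i₁ ≠ 0

/-- The elements: vertices, private elements of the edges, copies of integers. -/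
inductive El (k : ℕ)
  | v (i : ℕ)
  | p (e : ℕ × ℕ) (j : Fin k)
  | d (t : ℕ) (z : ℤ)
  deriving DecidableEq

/-- The positions of the digits. -/
inductive Pos (k : ℕ)
  | v (i : ℕ)
  | p (e : ℕ × ℕ) (j : Fin k)
  | d (t : ℕ)
  deriving DecidableEq

/-- The numbering of the positions. -/
def idx {k : ℕ} : Pos k → ℕ
  | .v i => 3 * i
  | .p e j => 3 * (Nat.pair e.1 e.2 * k + j.1) + 1
  | .d t => 3 * t + 2

theorem idx_inj {k : ℕ} : Function.Injective (idx (k := k)) := by
  intro q q' h
  cases q with
  | v i =>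
    cases q' with
    | v i' => simp only [idx] at h; congr 1; omega
    | p e' j' => simp only [idx] at h; omega
    | d t' => simp only [idx] at h; omega
  | p e j =>
    cases q' with
    | v i' => simp only [idx] at h; omega
    | p e' j' =>
      simp only [idx] at h
      have h1 : Nat.pair e.1 e.2 * k + j.1 = Nat.pair e'.1 e'.2 * k + j'.1 := by omega
      have hj := j.2
      have hj' := j'.2
      have h2 : Nat.pair e.1 e.2 = Nat.pair e'.1 e'.2 := by
        have h3 : (Nat.pair e.1 e.2 * k + j.1) / k = (Nat.pair e'.1 e'.2 * k + j'.1) / k := by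
          rw [h1]
        rw [mul_comm _ k, Nat.mul_add_div (by omega), mul_comm _ k, Nat.mul_add_div (by omega),
          Nat.div_eq_of_lt hj, Nat.div_eq_of_lt hj'] at h3
        simpa using h3
      have h4 : j = j' := by
        rw [h2] at h1
        exact Fin.ext (by omega)
      have h5 := Nat.pair_eq_pair.1 h2
      rw [h4, Prod.ext h5.1 h5.2]
    | d t' => simp only [idx] at h; omega
  | d t =>
    cases q' with
    | v i' => simp only [idx] at h; omega
    | p e' j' => simp only [idx] at h; omega
    | d t' => simp only [idx] at h; congr 1; omega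

variable {k : ℕ} (L : Co k)

/-- The places different from `i₀`, `i₁`. -/
def Co.J : Finset (Fin k) := (Finset.univ.erase L.i₀).erase L.i₁

theorem Co.card_J : L.J.card = k - 2 := by
  unfold Co.J
  rw [Finset.card_erase_of_mem (Finset.mem_erase.2 ⟨L.h01.symm, Finset.mem_univ _⟩),
    Finset.card_erase_of_mem (Finset.mem_univ _), Finset.card_univ, Fintype.card_fin]
  omega

theorem Co.mem_J (j : Fin k) : j ∈ L.J ↔ j ≠ L.i₁ ∧ j ≠ L.i₀ := by
  simp [Co.J]

/-- The digits of an element. -/
noncomputable def vec : El k → (Pos k →₀ ℤ)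
  | .v i => Finsupp.single (.v i) (L.a L.i₂)
  | .p e j => if j = L.i₂ then
      -(Finsupp.single (.v e.1) (L.a L.i₀) + Finsupp.single (.v e.2) (L.a L.i₁) +
        ∑ j' ∈ L.J.erase L.i₂, Finsupp.single (.p e j') (L.a j'))
      else Finsupp.single (.p e j) (L.a L.i₂)
  | .d t z => Finsupp.single (.d t) z

/-- The number belonging to an element. -/
noncomputable def val (B : ℤ) (e : El k) : ℤ := num idx B (vec L e)

/-- `∑ |a i|` -/
def Co.S : ℤ := ∑ i, |L.a i|

theorem Co.abs_le (i : Fin k) : |L.a i| ≤ L.S :=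
  Finset.single_le_sum (f := fun i => |L.a i|) (fun _ _ => abs_nonneg _) (Finset.mem_univ i)

theorem abs_single_le {ι : Type} [DecidableEq ι] (q q' : ι) (c : ℤ) :
    |(Finsupp.single q c) q'| ≤ |c| := by
  rw [Finsupp.single_apply]
  split_ifs
  · exact le_rfl
  · simp

/-- The elements that are used: `E` is the set of edges, and the copied integers are bounded. -/
def Valid (E : Finset (ℕ × ℕ)) (M : ℤ) : El k → Prop
  | .v _ => True
  | .p e j => e ∈ E ∧ j ∈ L.J
  | .d _ z => |z| ≤ M

theorem vec_le {E : Finset (ℕ × ℕ)} {M : ℤ} (hM : 0 ≤ M) (e : El k) (he : Valid L E M e)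
    (q : Pos k) : |vec L e q| ≤ L.S + M := by
  cases e with
  | v i => exact (abs_single_le _ _ _).trans ((L.abs_le _).trans (by linarith))
  | p e j =>
    by_cases hj : j = L.i₂
    · simp only [vec, if_pos hj, Finsupp.coe_neg, Pi.neg_apply, abs_neg, Finsupp.coe_add,
        Pi.add_apply, Finsupp.coe_finsetSum, Finset.sum_apply]
      have h1 : |∑ j' ∈ L.J.erase L.i₂, (Finsupp.single (Pos.p e j') (L.a j')) q| ≤
          ∑ j' ∈ L.J.erase L.i₂, |L.a j'| :=
        (Finset.abs_sum_le_sum_abs _ _).trans
          (Finset.sum_le_sum fun j' _ => abs_single_le _ _ _)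
      have h2 : |L.a L.i₀| + |L.a L.i₁| + ∑ j' ∈ L.J.erase L.i₂, |L.a j'| ≤ L.S := by
        unfold Co.S
        have h3 : ∑ j' ∈ L.J.erase L.i₂, |L.a j'| ≤ ∑ j' ∈ L.J, |L.a j'| :=
          Finset.sum_le_sum_of_subset_of_nonneg (Finset.erase_subset _ _)
            fun _ _ _ => abs_nonneg _
        have h4 : |L.a L.i₁| + ∑ j' ∈ L.J, |L.a j'| = ∑ j' ∈ Finset.univ.erase L.i₀, |L.a j'| :=
          Finset.add_sum_erase _ (fun j => |L.a j|)
            (Finset.mem_erase.2 ⟨L.h01.symm, Finset.mem_univ _⟩)
        have h5 : |L.a L.i₀| + ∑ j' ∈ Finset.univ.erase L.i₀, |L.a j'| = ∑ j', |L.a j'| :=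
          Finset.add_sum_erase _ (fun j => |L.a j|) (Finset.mem_univ _)
        linarith
      have h6 := abs_add_le ((Finsupp.single (Pos.v e.1) (L.a L.i₀)) q +
        (Finsupp.single (Pos.v e.2) (L.a L.i₁)) q)
        (∑ j' ∈ L.J.erase L.i₂, (Finsupp.single (Pos.p e j') (L.a j')) q)
      have h7 := abs_add_le ((Finsupp.single (Pos.v e.1) (L.a L.i₀) : Pos k →₀ ℤ) q)
        ((Finsupp.single (Pos.v e.2) (L.a L.i₁) : Pos k →₀ ℤ) q)
      have h8 := abs_single_le (Pos.v e.1) q (L.a L.i₀)
      have h9 := abs_single_le (Pos.v e.2) q (L.a L.i₁)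
      linarith
    · simp only [vec, if_neg hj]
      exact (abs_single_le _ _ _).trans ((L.abs_le _).trans (by linarith))
  | d t z =>
    have h1 : |z| ≤ M := he
    have h2 : 0 ≤ L.S := Finset.sum_nonneg fun _ _ => abs_nonneg _
    exact (abs_single_le _ _ _).trans (by linarith)

theorem vec_p (e : ℕ × ℕ) (j : Fin k) (hj : j ∈ L.J) (hj2 : j ≠ L.i₂) (x : El k) :
    vec L x (.p e j) = (if x = El.p e j then L.a L.i₂ else 0) -
      (if x = El.p e L.i₂ then L.a j else 0) := by
  cases x with
  | v i => simp [vec]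
  | p e' j' =>
    by_cases h : j' = L.i₂
    · subst h
      have h1 : ¬ (El.p e' L.i₂ = El.p e j) := by
        intro h
        injection h with h h'
        exact hj2 h'.symm
      by_cases he : e' = e
      · subst he
        simp only [vec, if_true, Finsupp.coe_neg, Pi.neg_apply, Finsupp.coe_add, Pi.add_apply,
          Finsupp.coe_finsetSum, Finset.sum_apply, if_neg h1]
        rw [Finset.sum_eq_single j]
        · simp
        · intro j' _ hne
          rw [Finsupp.single_apply, if_neg]
          intro h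
          injection h with h h'
          exact hne h'
        · intro h
          exact absurd (Finset.mem_erase.2 ⟨hj2, hj⟩) h
      · have h2 : ¬ (El.p e' L.i₂ = El.p e L.i₂) := by
          intro h
          injection h with h h'
          exact he h
        simp only [vec, if_true, Finsupp.coe_neg, Pi.neg_apply, Finsupp.coe_add, Pi.add_apply,
          Finsupp.coe_finsetSum, Finset.sum_apply, if_neg h1, if_neg h2]
        rw [Finset.sum_eq_zero]
        · simp
        · intro j' _
          rw [Finsupp.single_apply, if_neg]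
          intro h
          injection h with h h'
          exact he h
    · have h2 : ¬ (El.p e' j' = El.p e L.i₂) := by
        intro h'
        injection h' with h1 h3
        exact h h3
      simp only [vec, if_neg h, if_neg h2, sub_zero, Finsupp.single_apply]
      by_cases h3 : El.p e' j' = El.p e j
      · rw [if_pos h3, if_pos]
        injection h3 with h4 h5
        rw [h4, h5]
      · rw [if_neg h3, if_neg]
        intro h4
        apply h3
        injection h4 with h5 h6
        rw [h5, h6]
  | d t z => simp [vec]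

theorem vec_v {E : Finset (ℕ × ℕ)} {M : ℤ} (i : ℕ) (x : El k) (hx : Valid L E M x) :
    vec L x (.v i) = (if x = El.v i then L.a L.i₂ else 0) -
      ∑ e ∈ E, if x = El.p e L.i₂ then
        ((if e.1 = i then L.a L.i₀ else 0) + (if e.2 = i then L.a L.i₁ else 0)) else 0 := by
  cases x with
  | v i' =>
    simp [vec, Finsupp.single_apply]
  | p e' j' =>
    by_cases h : j' = L.i₂
    · subst h
      rw [Finset.sum_eq_single e']
      · simp [vec, Finsupp.single_apply]
      · intro e _ hne
        rw [if_neg]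
        intro h
        injection h with h h'
        exact hne h.symm
      · intro h
        exact absurd hx.1 h
    · rw [Finset.sum_eq_zero]
      · simp [vec, h, Finsupp.single_apply]
      · intro e _
        rw [if_neg]
        intro h'
        injection h' with h1 h2
        exact h h2
  | d t z => simp [vec]

/-- the integer of an element in the copy `t` -/
def dz (t : ℕ) : El k → ℤ
  | .d t' z => if t' = t then z else 0
  | _ => 0

theorem vec_d (t : ℕ) (x : El k) : vec L x (.d t) = dz t x := by
  cases x with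
  | v i => simp [vec, dz]
  | p e j =>
    by_cases h : j = L.i₂
    · simp [vec, dz, h]
    · simp [vec, dz, h]
  | d t' z => simp [vec, dz, Finsupp.single_apply]

/-- the total coefficient of an element -/
def Cf (x : Fin k → El k) (e : El k) : ℤ := ∑ i, if x i = e then L.a i else 0

theorem mem_of_Cf {x : Fin k → El k} {e : El k} (h : Cf L x e ≠ 0) : e ∈ Finset.univ.image x := by
  by_contra hn
  apply h
  unfold Cf
  refine Finset.sum_eq_zero fun i _ => ?_
  rw [if_neg]
  intro hi
  exact hn (Finset.mem_image.2 ⟨i, Finset.mem_univ _, hi⟩)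

section

variable {L}
variable {E : Finset (ℕ × ℕ)} {M B : ℤ} (hM : 0 ≤ M) (hB : L.S * (L.S + M) < B)
variable {x : Fin k → El k} (hx : ∀ i, Valid L E M (x i)) (h0 : ∑ i, L.a i * val L B (x i) = 0)

include hM hB hx h0 in
theorem coord (q : Pos k) : ∑ i, L.a i * vec L (x i) q = 0 := by
  have hS : 0 ≤ L.S := Finset.sum_nonneg fun _ _ => abs_nonneg _
  have hBpos : 0 < B := lt_of_le_of_lt (by positivity) hB
  have h1 : (∑ i, L.a i • vec L (x i)) = 0 := by
    refine num_eq_zero idx idx_inj B hBpos _ (fun q => ?_) ?_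
    · rw [Finsupp.coe_finsetSum, Finset.sum_apply]
      refine lt_of_le_of_lt ((Finset.abs_sum_le_sum_abs _ _).trans ?_) hB
      rw [Co.S, Finset.sum_mul]
      refine Finset.sum_le_sum fun i _ => ?_
      rw [Finsupp.smul_apply, smul_eq_mul, abs_mul]
      exact mul_le_mul_of_nonneg_left (vec_le L hM (x i) (hx i) q) (abs_nonneg _)
    · rw [map_sum]
      simpa [val] using h0
  have h2 := DFunLike.congr_fun h1 q
  rw [Finsupp.coe_finsetSum, Finset.sum_apply] at h2
  simpa using h2

include hM hB hx h0 in
theorem Cf_p (e : ℕ × ℕ) (j : Fin k) (hj : j ∈ L.J) (hj2 : j ≠ L.i₂) :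
    L.a L.i₂ * Cf L x (.p e j) = L.a j * Cf L x (.p e L.i₂) := by
  have h1 := coord hM hB hx h0 (.p e j)
  simp only [vec_p L e j hj hj2, mul_sub, Finset.sum_sub_distrib] at h1
  have h2 : ∀ (y : El k) (c : ℤ), ∑ i, L.a i * (if x i = y then c else 0) = c * Cf L x y := by
    intro y c
    rw [Cf, Finset.mul_sum]
    refine Finset.sum_congr rfl fun i _ => ?_
    split_ifs <;> ring
  rw [h2, h2] at h1
  linarith

include hM hB hx h0 in
theorem Cf_v (v : ℕ) : L.a L.i₂ * Cf L x (.v v) =
    ∑ e ∈ E, tm (L.a L.i₀) (L.a L.i₁) e.1 e.2 (Cf L x (.p e L.i₂)) v := by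
  have h1 := coord hM hB hx h0 (.v v)
  have h2 : ∀ (y : El k) (c : ℤ), ∑ i, L.a i * (if x i = y then c else 0) = c * Cf L x y := by
    intro y c
    rw [Cf, Finset.mul_sum]
    refine Finset.sum_congr rfl fun i _ => ?_
    split_ifs <;> ring
  have h3 : ∀ i, vec L (x i) (.v v) = (if x i = El.v v then L.a L.i₂ else 0) -
      ∑ e ∈ E, if x i = El.p e L.i₂ then
        ((if e.1 = v then L.a L.i₀ else 0) + (if e.2 = v then L.a L.i₁ else 0)) else 0 :=
    fun i => vec_v L v (x i) (hx i)
  simp only [h3, mul_sub, Finset.sum_sub_distrib, Finset.mul_sum] at h1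
  rw [h2, Finset.sum_comm] at h1
  have h4 : ∑ e ∈ E, tm (L.a L.i₀) (L.a L.i₁) e.1 e.2 (Cf L x (.p e L.i₂)) v =
      ∑ e ∈ E, ∑ i, L.a i * (if x i = El.p e L.i₂ then
        ((if e.1 = v then L.a L.i₀ else 0) + (if e.2 = v then L.a L.i₁ else 0)) else 0) := by
    refine Finset.sum_congr rfl fun e _ => ?_
    rw [h2]
    rfl
  rw [h4]
  linarith

/-- Counting the elements that occur. -/
theorem count {R : Finset (ℕ × ℕ)} {V : Finset ℕ} (hR : ∀ e ∈ R, ∀ j ∈ L.J, Cf L x (.p e j) ≠ 0)
    (hV : ∀ v ∈ V, Cf L x (.v v) ≠ 0) : R.card * (k - 2) + V.card ≤ k := by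
  have h1 : (R ×ˢ L.J).image (fun q => El.p q.1 q.2) ∪ V.image (El.v (k := k)) ⊆
      Finset.univ.image x := by
    intro y hy
    rcases Finset.mem_union.1 hy with hy | hy
    · obtain ⟨q, hq, rfl⟩ := Finset.mem_image.1 hy
      obtain ⟨h1, h2⟩ := Finset.mem_product.1 hq
      exact mem_of_Cf L (hR _ h1 _ h2)
    · obtain ⟨v, hv, rfl⟩ := Finset.mem_image.1 hy
      exact mem_of_Cf L (hV v hv)
  have h2 := Finset.card_le_card h1
  have h3 : (Finset.univ.image x).card ≤ k := by
    refine Finset.card_image_le.trans ?_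
    rw [Finset.card_univ, Fintype.card_fin]
  rw [Finset.card_union_of_disjoint, Finset.card_image_of_injOn, Finset.card_image_of_injOn,
    Finset.card_product, L.card_J] at h2
  · omega
  · intro v _ v' _ h
    injection h
  · intro q _ q' _ h
    simp only at h
    injection h with h1 h2
    exact Prod.ext h1 h2
  · rw [Finset.disjoint_left]
    intro y hy hy'
    obtain ⟨q, -, rfl⟩ := Finset.mem_image.1 hy
    obtain ⟨v, -, h⟩ := Finset.mem_image.1 hy'
    cases h

/-- the integer of an element -/
def zz : El k → ℤ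
  | .d _ z => z
  | _ => 0

/-- the copy of an element -/
def tt : El k → ℕ
  | .d t _ => t
  | _ => 0

/-- `x` is a copied integer -/
def isD : El k → Bool
  | .d _ _ => true
  | _ => false

include hM hB hx h0 in
/-- No edge occurs. -/
theorem case_D (hE : ∀ e ∈ E, Cf L x (.p e L.i₂) = 0) :
    ∃ y : Fin k → ℤ, (∀ i, ∃ t, El.d t (y i) ∈ Set.range x) ∧ ∑ i, L.a i * y i = 0 := by
  classical
  have h2 : ∀ e : ℕ × ℕ, Cf L x (.p e L.i₂) = 0 := by
    intro e
    by_contra h
    obtain ⟨i, -, hi⟩ := Finset.mem_image.1 (mem_of_Cf L h)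
    have h3 := hx i
    rw [hi] at h3
    exact h (hE e h3.1)
  have h3 : ∀ y : El k, isD y = false → Cf L x y = 0 := by
    intro y hy
    cases y with
    | v v =>
      have h4 := Cf_v hM hB hx h0 v
      rw [Finset.sum_eq_zero] at h4
      · exact (mul_eq_zero.1 h4).resolve_left (L.ha _)
      · intro e _
        rw [h2 e, tm, mul_zero]
    | p e j =>
      by_cases hj : j ∈ L.J
      · by_cases hj2 : j = L.i₂
        · rw [hj2]; exact h2 e
        · have h4 := Cf_p hM hB hx h0 e j hj hj2
          rw [h2 e, mul_zero] at h4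
          exact (mul_eq_zero.1 h4).resolve_left (L.ha _)
      · by_contra h
        obtain ⟨i, -, hi⟩ := Finset.mem_image.1 (mem_of_Cf L h)
        have h5 := hx i
        rw [hi] at h5
        exact hj h5.2
    | d t z => simp [isD] at hy
  have h4 : ∑ i ∈ Finset.univ.filter (fun i => isD (x i) = false), L.a i = 0 := by
    rw [← Finset.sum_fiberwise_of_maps_to (g := x) (t := Finset.univ.image x)
      (fun i _ => Finset.mem_image_of_mem _ (Finset.mem_univ _))]
    refine Finset.sum_eq_zero fun y _ => ?_
    by_cases hy : isD y = false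
    · have h5 := h3 y hy
      rw [Cf, ← Finset.sum_filter] at h5
      rw [← h5]
      refine Finset.sum_congr ?_ fun _ _ => rfl
      ext i
      simp only [Finset.mem_filter, Finset.mem_univ, true_and]
      constructor
      · exact fun h => h.2
      · intro h
        exact ⟨by rw [h]; exact hy, h⟩
    · refine Finset.sum_eq_zero fun i hi => ?_
      simp only [Finset.mem_filter, Finset.mem_univ, true_and] at hi
      rw [hi.2] at hi
      exact absurd hi.1 hy
  have h5 : ∑ i, L.a i * zz (x i) = 0 := by
    have h6 : ∀ i, zz (x i) = ∑ t ∈ Finset.univ.image (fun i => tt (x i)), dz t (x i) := by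
      intro i
      have hm : tt (x i) ∈ Finset.univ.image (fun i => tt (x i)) :=
        Finset.mem_image_of_mem (fun i => tt (x i)) (Finset.mem_univ i)
      cases hxi : x i with
      | v v => simp [zz, dz]
      | p e j => simp [zz, dz]
      | d t z =>
        rw [hxi] at hm
        change t ∈ Finset.univ.image (fun i => tt (x i)) at hm
        simp only [zz, dz]
        rw [Finset.sum_ite_eq, if_pos hm]
    simp only [h6, Finset.mul_sum]
    rw [Finset.sum_comm]
    refine Finset.sum_eq_zero fun t _ => ?_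
    have h7 := coord hM hB hx h0 (.d t)
    simpa only [vec_d] using h7
  -- some element is a copied integer
  obtain ⟨i', hi'⟩ : ∃ i, isD (x i) = true := by
    by_contra hcon
    push Not at hcon
    apply L.hsum
    rw [← h4]
    refine Finset.sum_congr ?_ fun _ _ => rfl
    ext i
    simp only [Finset.mem_filter, Finset.mem_univ, true_and, true_iff]
    simpa using hcon i
  refine ⟨fun i => if isD (x i) then zz (x i) else zz (x i'), fun i => ?_, ?_⟩
  · by_cases hi : isD (x i) = true
    · simp only [hi, if_true]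
      cases hxi : x i with
      | v v => rw [hxi] at hi; simp [isD] at hi
      | p e j => rw [hxi] at hi; simp [isD] at hi
      | d t z => exact ⟨t, i, hxi⟩
    · simp only [hi]
      cases hxi : x i' with
      | v v => rw [hxi] at hi'; simp [isD] at hi'
      | p e j => rw [hxi] at hi'; simp [isD] at hi'
      | d t z => exact ⟨t, i', hxi⟩
  · have h8 : ∀ i, L.a i * (if isD (x i) then zz (x i) else zz (x i')) =
        L.a i * zz (x i) + zz (x i') * (if isD (x i) = false then L.a i else 0) := by
      intro i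
      by_cases hi : isD (x i) = true
      · simp [hi]
      · have h9 : zz (x i) = 0 := by
          cases hxi : x i with
          | v v => rfl
          | p e j => rfl
          | d t z => rw [hxi] at hi; simp [isD] at hi
        simp only [Bool.not_eq_true] at hi
        simp [hi, h9]
        ring
    simp only [h8, Finset.sum_add_distrib]
    rw [h5, ← Finset.mul_sum, ← Finset.sum_filter, h4]
    simp

include hM hB hx h0 in
/-- **The solutions of the equation in the constructed set.** -/
theorem key (hk : 3 ≤ k) (hlt : ∀ e ∈ E, e.1 < e.2) :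
    (∃ e ∈ E, El.v e.1 ∈ Set.range x ∧ El.v e.2 ∈ Set.range x) ∨
    ∃ y : Fin k → ℤ, (∀ i, ∃ t, El.d t (y i) ∈ Set.range x) ∧ ∑ i, L.a i * y i = 0 := by
  classical
  set R : Finset (ℕ × ℕ) := E.filter fun e => Cf L x (.p e L.i₂) ≠ 0 with hR
  set F : ℕ → ℤ := fun v => ∑ e ∈ R, tm (L.a L.i₀) (L.a L.i₁) e.1 e.2 (Cf L x (.p e L.i₂)) v with hF
  have hFv : ∀ v, L.a L.i₂ * Cf L x (.v v) = F v := by
    intro v
    rw [Cf_v hM hB hx h0 v, hF, hR]
    simp only
    rw [Finset.sum_filter]
    refine Finset.sum_congr rfl fun e _ => ?_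
    by_cases h : Cf L x (.p e L.i₂) ≠ 0
    · rw [if_pos h]
    · rw [if_neg h]
      push Not at h
      rw [h, tm, mul_zero]
  have hv : ∀ v, F v ≠ 0 → Cf L x (.v v) ≠ 0 := by
    intro v h h'
    apply h
    rw [← hFv v, h', mul_zero]
  have hRJ : ∀ e ∈ R, ∀ j ∈ L.J, Cf L x (.p e j) ≠ 0 := by
    intro e he j hj
    have h1 : Cf L x (.p e L.i₂) ≠ 0 := (Finset.mem_filter.1 he).2
    by_cases hj2 : j = L.i₂
    · rw [hj2]; exact h1
    · have h2 := Cf_p hM hB hx h0 e j hj hj2
      intro h3
      rw [h3, mul_zero] at h2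
      exact mul_ne_zero (L.ha j) h1 h2.symm
  have hRE : ∀ e ∈ R, e.1 < e.2 := fun e he => hlt e (Finset.mem_filter.1 he).1
  have hRc : ∀ e ∈ R, Cf L x (.p e L.i₂) ≠ 0 := fun e he => (Finset.mem_filter.1 he).2
  rcases Nat.lt_or_ge 3 R.card with h4 | h4
  · have h5 := count (V := ∅) hRJ (by simp)
    have h6 : 4 * (k - 2) ≤ R.card * (k - 2) := Nat.mul_le_mul_right _ h4
    simp only [Finset.card_empty] at h5
    omega
  · interval_cases hc : R.card
    · right
      rw [Finset.card_eq_zero] at hc
      refine case_D hM hB hx h0 fun e he => ?_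
      by_contra h
      have : e ∈ R := Finset.mem_filter.2 ⟨he, h⟩
      rw [hc] at this
      simp at this
    · left
      obtain ⟨e, he⟩ := Finset.card_eq_one.1 hc
      have heR : e ∈ R := by rw [he]; simp
      refine ⟨e, (Finset.mem_filter.1 heR).1, ?_, ?_⟩
      · have h1 : F e.1 ≠ 0 := by
          simp only [hF, he, Finset.sum_singleton]
          rw [tm_fst _ (hRE e heR).ne']
          exact mul_ne_zero (L.ha _) (hRc e heR)
        obtain ⟨i, -, hi⟩ := Finset.mem_image.1 (mem_of_Cf L (hv _ h1))
        exact ⟨i, hi⟩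
      · have h1 : F e.2 ≠ 0 := by
          simp only [hF, he, Finset.sum_singleton]
          rw [tm_snd _ (hRE e heR).ne]
          exact mul_ne_zero (L.ha _) (hRc e heR)
        obtain ⟨i, -, hi⟩ := Finset.mem_image.1 (mem_of_Cf L (hv _ h1))
        exact ⟨i, hi⟩
    · exfalso
      obtain ⟨e, e', hne, he⟩ := Finset.card_eq_two.1 hc
      have heR : e ∈ R := by rw [he]; simp
      have heR' : e' ∈ R := by rw [he]; simp
      obtain ⟨v, w, hvw, h1, h2⟩ := two_edges (L.ha L.i₀) (L.ha L.i₁) (hRc e heR) (hRc e' heR')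
        (hRE e heR) (hRE e' heR') (fun h => hne (Prod.ext h.1 h.2))
      have h3 : ∀ u, F u = tm (L.a L.i₀) (L.a L.i₁) e.1 e.2 (Cf L x (.p e L.i₂)) u +
          tm (L.a L.i₀) (L.a L.i₁) e'.1 e'.2 (Cf L x (.p e' L.i₂)) u := by
        intro u
        simp only [hF, he]
        rw [Finset.sum_pair hne]
      rw [← h3] at h1 h2
      have h5 := count (V := {v, w}) hRJ (by
        intro u hu
        rcases Finset.mem_insert.1 hu with rfl | hu
        · exact hv _ h1
        · rw [Finset.mem_singleton.1 hu]
          exact hv _ h2)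
      rw [Finset.card_pair hvw, hc] at h5
      omega
    · exfalso
      obtain ⟨e, e', e'', h12, h13, h23, he⟩ := Finset.card_eq_three.1 hc
      have heR : e ∈ R := by rw [he]; simp
      have heR' : e' ∈ R := by rw [he]; simp
      have heR'' : e'' ∈ R := by rw [he]; simp
      obtain ⟨v, h1⟩ := three_edges (L.ha L.i₀) (L.ha L.i₁) L.hpair (hRc e heR) (hRc e' heR')
        (hRc e'' heR'') (hRE e heR) (hRE e' heR') (hRE e'' heR'')
        (fun h => h12 (Prod.ext h.1 h.2)) (fun h => h13 (Prod.ext h.1 h.2))
        (fun h => h23 (Prod.ext h.1 h.2))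
      have h3 : F v = tm (L.a L.i₀) (L.a L.i₁) e.1 e.2 (Cf L x (.p e L.i₂)) v +
          tm (L.a L.i₀) (L.a L.i₁) e'.1 e'.2 (Cf L x (.p e' L.i₂)) v +
          tm (L.a L.i₀) (L.a L.i₁) e''.1 e''.2 (Cf L x (.p e'' L.i₂)) v := by
        simp only [hF, he]
        rw [Finset.sum_insert (by simp [h12, h13]), Finset.sum_pair h23, add_assoc]
      rw [← h3] at h1
      have h5 := count (V := {v}) hRJ (by
        intro u hu
        rw [Finset.mem_singleton.1 hu]
        exact hv _ h1)
      rw [Finset.card_singleton, hc] at h5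
      omega

end

end Pool.Agent.V8H41.LF
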