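import Pool.Agent.V8H41.LF.NP

/-!
# The theorem
-/

set_option autoImplicit false

namespace Pool.Agent.V8H41.LF

open Finset Pool.Agent.Lib.CX

variable {k : ℕ}

theorem exists_pair (hk : 3 ≤ k) (a : Fin k → ℤ) (ha : ∀ i, a i ≠ 0) :
    ∃ i₀ i₁ i₂ : Fin k, i₀ ≠ i₁ ∧ i₀ ≠ i₂ ∧ i₁ ≠ i₂ ∧ a i₀ + a i₁ ≠ 0 := by
  have h01 : (⟨0, by omega⟩ : Fin k) ≠ ⟨1, by omega⟩ := by
    intro h; simp [Fin.ext_iff] at h
  have h02 : (⟨0, by omega⟩ : Fin k) ≠ ⟨2, by omega⟩ := by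
    intro h; simp [Fin.ext_iff] at h
  have h12 : (⟨1, by omega⟩ : Fin k) ≠ ⟨2, by omega⟩ := by
    intro h; simp [Fin.ext_iff] at h
  by_cases h1 : a ⟨0, by omega⟩ + a ⟨1, by omega⟩ = 0
  · by_cases h2 : a ⟨0, by omega⟩ + a ⟨2, by omega⟩ = 0
    · refine ⟨_, _, _, h12, h01.symm, h02.symm, fun h3 => ha ⟨0, by omega⟩ ?_⟩
      linarith
    · exact ⟨_, _, _, h02, h01, h12.symm, h2⟩
  · exact ⟨_, _, _, h01, h02, h12, h1⟩

theorem free_empty (hk : 0 < k) (a : Fin k → ℤ) : Free a ∅ := by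
  rintro ⟨x, hx, -⟩
  exact absurd (hx ⟨0, hk⟩) (by simp)

theorem card_le_maxFree (a : Fin k → ℤ) {A S : Finset ℤ} (h : S ⊆ A) (hS : Free a S) :
    S.card ≤ maxFree a A := by
  classical
  exact Finset.le_sup (f := Finset.card) (Finset.mem_filter.2 ⟨Finset.mem_powerset.2 h, hS⟩)

theorem exists_maxFree (hk : 0 < k) (a : Fin k → ℤ) (A : Finset ℤ) :
    ∃ S ⊆ A, Free a S ∧ S.card = maxFree a A := by
  classical
  obtain ⟨S, hS, h⟩ := Finset.exists_mem_eq_sup (A.powerset.filter fun S => Free a S)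
    ⟨∅, Finset.mem_filter.2 ⟨Finset.mem_powerset.2 (Finset.empty_subset _), free_empty hk a⟩⟩
    Finset.card
  obtain ⟨h1, h2⟩ := Finset.mem_filter.1 hS
  refine ⟨S, Finset.mem_powerset.1 h1, h2, ?_⟩
  exact h.symm

theorem eps_iff {ε : ℚ} {q g : ℕ} (hq : 0 < q) (h : (q : ℚ) * (1 - ε) = g) (N s : ℕ) :
    ε * N ≤ s ↔ q * N ≤ q * s + g * N := by
  have hq' : (0 : ℚ) < q := by exact_mod_cast hq
  have h1 : (q * N ≤ q * s + g * N) ↔ ((q : ℚ) * N ≤ q * s + g * N) := by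
    norm_cast
  rw [h1, ← h, ← mul_le_mul_iff_right₀ hq']
  constructor <;> intro h2 <;> nlinarith

/-- The decision problem. -/
def EpsFree (a : Fin k → ℤ) (ε : ℚ) (A : Inst) : Prop :=
  ∃ S : Finset ℤ, S ⊆ A.1.toFinset ∧ Free a S ∧ ε * A.1.length ≤ S.card

theorem main (hk : 3 ≤ k) (a : Fin k → ℤ) (ha : ∀ i, a i ≠ 0) (hs : ∑ i, a i ≠ 0) (ε : ℚ)
    (h1 : kappa a < ε) (h2 : ε < 1) : NPComplete (EpsFree a ε) := by
  classical
  obtain ⟨i₀, i₁, i₂, h01, h02, h12, hpair⟩ := exists_pair hk a ha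
  -- the set `D`
  obtain ⟨r, ⟨D, hDne, hD0, rfl⟩, hr⟩ := exists_lt_of_csInf_lt
    (⟨_, {1}, by simp, by simp, rfl⟩ : {r : ℝ | ∃ A : Finset ℤ, A.Nonempty ∧ 0 ∉ A ∧
      r = maxFree a A / A.card}.Nonempty) h1
  obtain ⟨SD, hSD, hfree, hcard⟩ := exists_maxFree (by omega) a D
  have hDpos : 0 < D.card := Finset.card_pos.2 hDne
  have hDpos' : (0 : ℝ) < D.card := by exact_mod_cast hDpos
  rw [div_lt_iff₀ hDpos', ← hcard] at hr
  have hr' : (SD.card : ℚ) < ε * D.card := by exact_mod_cast hr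
  have hε : 0 < ε := by
    have h3 : (0 : ℚ) ≤ SD.card := Nat.cast_nonneg _
    have h4 : (0 : ℚ) < D.card := by exact_mod_cast hDpos
    by_contra h
    push Not at h
    nlinarith
  -- the numbers `q`, `g`
  obtain ⟨q, g, hq, hg, hgq, hqg⟩ : ∃ q g : ℕ, 0 < q ∧ 0 < g ∧ g ≤ q ∧ (q : ℚ) * (1 - ε) = g := by
    have h3 : (0 : ℤ) < ε.num := Rat.num_pos.2 hε
    have h4 : ε.num < ε.den := by
      have h5 : (ε.num : ℚ) < ε.den := by
        have h6 := Rat.den_mul_eq_num ε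
        have h7 : (0 : ℚ) < ε.den := by exact_mod_cast ε.den_pos
        nlinarith
      exact_mod_cast h5
    refine ⟨ε.den, (ε.den - ε.num).toNat, ε.den_pos, by omega, by omega, ?_⟩
    have h5 : (((ε.den - ε.num).toNat : ℕ) : ℚ) = ε.den - ε.num := by
      have h6 : (((ε.den - ε.num).toNat : ℕ) : ℤ) = ε.den - ε.num := Int.toNat_of_nonneg (by omega)
      exact_mod_cast congrArg (Int.cast (R := ℚ)) h6
    rw [h5, mul_sub, mul_one, Rat.den_mul_eq_num]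
  have hle : SD.card ≤ D.card := Finset.card_le_card hSD
  obtain ⟨Δ, hΔ⟩ : ∃ Δ, q * (D.card - SD.card) = g * D.card + Δ + 1 := by
    have h3 : ¬ (q * D.card ≤ q * SD.card + g * D.card) := by
      rw [← eps_iff hq hqg]
      push Not
      exact hr'
    have h4 : q * (D.card - SD.card) = q * D.card - q * SD.card := Nat.mul_sub _ _ _
    refine ⟨q * (D.card - SD.card) - g * D.card - 1, ?_⟩
    omega
  have hM : ∀ z ∈ D, |z| ≤ ∑ z ∈ D, |z| := fun z hz =>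
    Finset.single_le_sum (f := fun z => |z|) (fun _ _ => abs_nonneg _) hz
  have hM0 : 0 ≤ ∑ z ∈ D, |z| := Finset.sum_nonneg fun _ _ => abs_nonneg _
  let L : Co k := ⟨a, i₀, i₁, i₂, h01, h02, h12, ha, hs, hpair⟩
  let P : Par k :=
    { L := L, hk := hk, D := D, SD := SD, hD0 := hD0, hSD := hSD, hfree := hfree
      hmax := fun S h h' => (card_le_maxFree a h h').trans hcard.ge
      M := ∑ z ∈ D, |z|
      B := ((L.S * (L.S + ∑ z ∈ D, |z|) + 1).toNat : ℕ)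
      hM := hM, hM0 := hM0
      hB := by
        have h3 : 0 ≤ L.S * (L.S + ∑ z ∈ D, |z|) :=
          mul_nonneg L.S_nonneg (add_nonneg L.S_nonneg hM0)
        rw [Int.toNat_of_nonneg (by omega)]
        omega
      g := g, q := q, Δ := Δ, hg := hg, hgq := hgq, hΔ := hΔ }
  have hiff : ∀ A : Inst, EpsFree a ε A ↔ ∃ S : Finset ℤ, S ⊆ A.1.toFinset ∧ Free a S ∧
      q * A.1.length ≤ q * S.card + g * A.1.length := by
    intro A
    unfold EpsFree
    simp only [eps_iff hq hqg]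
  refine ⟨(inNP a q g).of_iff hiff, ?_⟩
  have hh := hard P _ rfl
  exact hh.red ⟨fun A => A, PT.id, fun A => (hiff A).symm⟩

end Pool.Agent.V8H41.LF
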