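import Pool.Agent.V8H41.LF.Equiv
import Pool.Agent.Lib.lead.CXBase

/-!
# The reduction in polynomial time, membership in `NP`, and the theorem
-/

set_option autoImplicit false

namespace Pool.Agent.V8H41.LF

open Finset Pool.Agent.Lib.CX

section poly

variable {α β : Type} [Enc α] [Enc β]

theorem PT_map_const {ι : Type} (l : List ι) {F : ι → α → β} (h : ∀ i ∈ l, PT (F i)) :
    PT (fun a => l.map fun i => F i a) := by
  induction l with
  | nil => exact PT.const []
  | cons i l ih =>
    exact (PT.cons (h i List.mem_cons_self)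
      (ih fun j hj => h j (List.mem_cons_of_mem _ hj))).congr fun a => by simp

theorem PB_pair {u v : α → ℕ} (hu : PB u) (hv : PB v) : PB (fun a => Nat.pair (u a) (v a)) :=
  (((hu.add hv).add (PB.const 1)).pow 2).mono fun a =>
    (Nat.pair_lt_max_add_one_sq _ _).le.trans (Nat.pow_le_pow_left (by omega) 2)

theorem PT_ipow (b : ℕ) {f : α → ℕ} (hf : PT f) (hb : PB f) : PT (fun a => (b : ℤ) ^ f a) :=
  (PT.pow (PT.const b) hf hb).natCast.congr fun a => by push_cast; rfl

theorem PT_cmul (c : ℤ) {f : α → ℤ} (hf : PT f) : PT (fun a => c * f a) :=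
  (PT.const c).imul hf

end poly

variable {k : ℕ}

/-- The elements of an edge, as numbers. -/
noncomputable def pv (P : Par k) (b : ℕ) (u v : ℕ) (j : Fin k) : ℤ :=
  if j = P.L.i₂ then
    -(P.L.a P.L.i₀ * (b : ℤ) ^ (3 * u) + P.L.a P.L.i₁ * (b : ℤ) ^ (3 * v) +
      ((P.L.J.erase P.L.i₂).toList.map fun j' : Fin k =>
        P.L.a j' * (b : ℤ) ^ (3 * (Nat.pair u v * k + j'.1) + 1)).sum)
  else P.L.a P.L.i₂ * (b : ℤ) ^ (3 * (Nat.pair u v * k + j.1) + 1)

/-- The number of vertices, with the isolated ones. -/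
def N1 (P : Par k) (x : List Unit × List (ℕ × ℕ) × ℕ) : ℕ :=
  x.1.length + P.r x.1.length x.2.1.length (min x.2.2 x.1.length)

/-- The number of copies. -/
def T1 (P : Par k) (x : List Unit × List (ℕ × ℕ) × ℕ) : ℕ := P.T x.1.length x.2.1.length

/-- The list, for all inputs. -/
noncomputable def lf (P : Par k) (b : ℕ) (x : List Unit × List (ℕ × ℕ) × ℕ) : List ℤ :=
  (List.range (N1 P x)).map (fun i => P.L.a P.L.i₂ * (b : ℤ) ^ (3 * min i (N1 P x))) ++
  (x.2.1.flatMap (fun e => P.L.J.toList.map fun j =>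
    pv P b (min e.1 x.1.length) (min e.2 x.1.length) j) ++
  (List.range (T1 P x)).flatMap fun t =>
    P.D.toList.map fun z => z * (b : ℤ) ^ (3 * min t (T1 P x) + 2))

theorem lf_eq (P : Par k) (b : ℕ) (hb : P.B = b) (n : List Unit) (es : List (ℕ × ℕ)) (K : ℕ)
    (hes : ∀ e ∈ es, e.1 < e.2 ∧ e.2 < n.length) (hK : K ≤ n.length) :
    lf P b (n, es, K) = P.list n.length es K := by
  rw [lf, Par.list, Par.els, els, N1, T1]
  simp only [List.map_append, List.map_flatMap, List.map_map, min_eq_left hK]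
  congr 1
  · refine List.map_congr_left fun i hi => ?_
    rw [min_eq_left (List.mem_range.1 hi).le]
    simp [val, vec, num_single, idx, hb]
  · congr 1
    · refine List.flatMap_congr fun e he => ?_
      obtain ⟨h1, h2⟩ := hes e he
      rw [min_eq_left (by omega), min_eq_left (by omega)]
      refine List.map_congr_left fun j _ => ?_
      simp only [Function.comp_apply, pv, val, vec]
      by_cases hj : j = P.L.i₂
      · rw [if_pos hj, if_pos hj, map_neg, map_add, map_add, map_sum, num_single, num_single]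
        simp only [num_single, idx, hb]
        rw [Finset.sum_map_toList]
      · rw [if_neg hj, if_neg hj, num_single]
        simp only [idx, hb]
    · refine List.flatMap_congr fun t ht => ?_
      refine List.map_congr_left fun z _ => ?_
      rw [min_eq_left (List.mem_range.1 ht).le]
      simp [val, vec, num_single, idx, hb]

theorem lf_pt (P : Par k) (b : ℕ) : PT (lf P b) := by
  have hlenB : PB (fun x : List Unit × List (ℕ × ℕ) × ℕ => x.1.length) := by fun_prop
  have hmB : PB (fun x : List Unit × List (ℕ × ℕ) × ℕ => x.2.1.length) := by fun_prop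
  have hminB : PB (fun x : List Unit × List (ℕ × ℕ) × ℕ => min x.2.2 x.1.length) :=
    hlenB.mono fun _ => min_le_right _ _
  have hNB : PB (N1 P) := by
    unfold N1 Par.r Par.N₀
    exact hlenB.add (((hlenB.add (hmB.mul (PB.const _))).mul (PB.const _)).add
      ((((PB.const _).mul hminB).add (PB.const _)).mono fun a =>
        (Nat.div_le_self _ _).trans (Nat.sub_le _ _)))
  have hN : PT (N1 P) := by
    unfold N1 Par.r Par.N₀
    fun_prop
  have hTB : PB (T1 P) := by
    unfold T1 Par.T Par.N₀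
    exact (PB.const _).mul (hlenB.add (hmB.mul (PB.const _)))
  have hT : PT (T1 P) := by
    unfold T1 Par.T Par.N₀
    fun_prop
  unfold lf
  refine PT.append (PT.map (F := fun (x : List Unit × List (ℕ × ℕ) × ℕ) (i : ℕ) =>
      P.L.a P.L.i₂ * (b : ℤ) ^ (3 * min i (N1 P x))) ?_ (PT.range hN hNB))
    (PT.append (PT.flatMap (F :=
      fun (x : List Unit × List (ℕ × ℕ) × ℕ) (e : ℕ × ℕ) => P.L.J.toList.map fun j =>
        pv P b (min e.1 x.1.length) (min e.2 x.1.length) j) ?_ (by fun_prop)) (PT.flatMap (F :=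
      fun (x : List Unit × List (ℕ × ℕ) × ℕ) (t : ℕ) => P.D.toList.map
        fun z => z * (b : ℤ) ^ (3 * min t (T1 P x) + 2)) ?_ (PT.range hT hTB)))
  · refine PT_cmul _ (PT_ipow b ?_ ?_)
    · exact (PT.const 3).mul (PT.snd'.min (hN.comp PT.fst'))
    · exact ((PB.const 3).mul (hNB.comp PT.fst')).mono fun p =>
        Nat.mul_le_mul_left _ (min_le_right _ _)
  · refine PT_map_const _ fun j _ => ?_
    have hu : PT (fun p : (List Unit × List (ℕ × ℕ) × ℕ) × (ℕ × ℕ) => min p.2.1 p.1.1.length) := by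
      fun_prop
    have hv : PT (fun p : (List Unit × List (ℕ × ℕ) × ℕ) × (ℕ × ℕ) => min p.2.2 p.1.1.length) := by
      fun_prop
    have huB : PB (fun p : (List Unit × List (ℕ × ℕ) × ℕ) × (ℕ × ℕ) => min p.2.1 p.1.1.length) :=
      (hlenB.comp PT.fst').mono fun _ => min_le_right _ _
    have hvB : PB (fun p : (List Unit × List (ℕ × ℕ) × ℕ) × (ℕ × ℕ) => min p.2.2 p.1.1.length) :=
      (hlenB.comp PT.fst').mono fun _ => min_le_right _ _
    have hpw : ∀ j' : Fin k, PT (fun p : (List Unit × List (ℕ × ℕ) × ℕ) × (ℕ × ℕ) =>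
        (b : ℤ) ^ (3 * (Nat.pair (min p.2.1 p.1.1.length) (min p.2.2 p.1.1.length) * k + j'.1) +
          1)) := by
      intro j'
      refine PT_ipow b ?_ ?_
      · exact ((PT.const 3).mul (((hu.natPair hv).mul (PT.const k)).add (PT.const j'.1))).add
          (PT.const 1)
      · exact ((PB.const 3).mul (((PB_pair huB hvB).mul (PB.const k)).add (PB.const j'.1))).add
          (PB.const 1)
    unfold pv
    by_cases hj : j = P.L.i₂
    · simp only [if_pos hj]
      refine PT.neg (PT.iadd (PT.iadd (PT_cmul _ (PT_ipow b ((PT.const 3).mul hu)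
        ((PB.const 3).mul huB))) (PT_cmul _ (PT_ipow b ((PT.const 3).mul hv)
        ((PB.const 3).mul hvB)))) (PT.isum (PT_map_const _ fun j' _ => PT_cmul _ (hpw j'))))
    · simp only [if_neg hj]
      exact PT_cmul _ (hpw j)
  · refine PT_map_const _ fun z _ => PT_cmul _ (PT_ipow b ?_ ?_)
    · exact ((PT.const 3).mul (PT.snd'.min (hT.comp PT.fst'))).add (PT.const 2)
    · exact (((PB.const 3).mul (hTB.comp PT.fst')).add (PB.const 2)).mono fun p =>
        Nat.add_le_add_right (Nat.mul_le_mul_left _ (min_le_right _ _)) _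

/-! ### Membership in `NP` -/

/-- The values of the linear form with the coefficients `al` on the elements of `c`. -/
def sums : List ℤ → List ℤ → List ℤ
  | [], _ => [0]
  | b :: al, c => (c ×ˢ sums al c).map fun p => b * p.1 + p.2

theorem sums_pt (al : List ℤ) : PT (sums al) := by
  induction al with
  | nil => exact PT.const _
  | cons b al ih =>
    change PT fun c => (c ×ˢ sums al c).map fun p => b * p.1 + p.2
    fun_prop

theorem mem_sums (al : List ℤ) (c : List ℤ) (z : ℤ) : z ∈ sums al c ↔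
    ∃ x : Fin al.length → ℤ, (∀ i, x i ∈ c) ∧ ∑ i, al.get i * x i = z := by
  induction al generalizing z with
  | nil =>
    simp only [sums, List.mem_singleton]
    constructor
    · rintro rfl
      exact ⟨fun i => i.elim0, fun i => i.elim0, by simp⟩
    · rintro ⟨x, -, h⟩
      rw [← h]
      simp
  | cons b al ih =>
    simp only [sums, List.mem_map, Prod.exists]
    constructor
    · rintro ⟨y, s, hys, rfl⟩
      obtain ⟨hy, hs⟩ := List.mem_product.1 hys
      obtain ⟨x, hx, rfl⟩ := (ih s).1 hs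
      refine ⟨Fin.cons y x, ?_, ?_⟩
      · intro i
        refine Fin.cases ?_ (fun i => ?_) i
        · simpa using hy
        · simpa using hx i
      · change ∑ i : Fin (al.length + 1), _ = _
        rw [Fin.sum_univ_succ]
        simp
    · rintro ⟨x, hx, h⟩
      refine ⟨x 0, ∑ i : Fin al.length, al.get i * x i.succ, List.mem_product.2 ⟨hx 0, (ih _).2
        ⟨fun i => x i.succ, fun i => hx i.succ, rfl⟩⟩, ?_⟩
      rw [← h]
      change _ = ∑ i : Fin (al.length + 1), _
      rw [Fin.sum_univ_succ]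
      simp

theorem free_iff {k : ℕ} (a : Fin k → ℤ) (c : List ℤ) :
    Free a c.toFinset ↔ 0 ∉ sums (List.ofFn a) c := by
  rw [Free, mem_sums, not_iff_not]
  have hlen : (List.ofFn a).length = k := List.length_ofFn
  constructor
  · rintro ⟨x, hx, h⟩
    refine ⟨fun i => x (Fin.cast hlen i), fun i => List.mem_toFinset.1 (hx _), ?_⟩
    rw [← h]
    refine Fintype.sum_equiv (finCongr hlen) _ _ fun i => ?_
    simp
    exact Or.inl rfl
  · rintro ⟨x, hx, h⟩
    refine ⟨fun i => x (Fin.cast hlen.symm i), fun i => List.mem_toFinset.2 (hx _), ?_⟩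
    rw [← h]
    refine (Fintype.sum_equiv (finCongr hlen) _ _ fun i => ?_).symm
    simp
    exact Or.inl rfl

/-- Finite sets of nonzero integers, as lists without repetitions. -/
abbrev Inst : Type := {l : List ℤ // l.Nodup ∧ 0 ∉ l}

theorem inNP {k : ℕ} (a : Fin k → ℤ) (q g : ℕ) : InNP (fun A : Inst => ∃ S : Finset ℤ,
    S ⊆ A.1.toFinset ∧ Free a S ∧ q * A.1.length ≤ q * S.card + g * A.1.length) := by
  refine InNP.of_cert' (γ := List ℤ) (fun A c => c.Nodup ∧ (∀ x ∈ c, x ∈ A.1) ∧
    0 ∉ sums (List.ofFn a) c ∧ q * A.1.length ≤ q * c.length + g * A.1.length)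
    (i := fun _ _ => inferInstance) (fun A => size A) ?_ PB.size' ?_ ?_
  · have h := sums_pt (List.ofFn a)
    fun_prop
  · rintro A c ⟨h1, h2, h3, h4⟩
    refine ⟨c.toFinset, fun x hx => List.mem_toFinset.2 (h2 x (List.mem_toFinset.1 hx)),
      (free_iff a c).2 h3, ?_⟩
    rwa [List.toFinset_card_of_nodup h1]
  · rintro A ⟨S, h1, h2, h3⟩
    have hn : (A.1.filter fun x => decide (x ∈ S)).Nodup := A.2.1.filter _
    have hS : (A.1.filter fun x => decide (x ∈ S)).toFinset = S := by
      ext x
      simp only [List.mem_toFinset, List.mem_filter, decide_eq_true_eq]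
      exact ⟨fun h => h.2, fun h => ⟨List.mem_toFinset.1 (h1 h), h⟩⟩
    refine ⟨A.1.filter fun x => decide (x ∈ S), size_sublist List.filter_sublist, hn,
      fun x hx => (List.mem_filter.1 hx).1, ?_, ?_⟩
    · rw [← free_iff, hS]
      exact h2
    · rw [← List.toFinset_card_of_nodup hn, hS]
      exact h3

theorem hard (P : Par k) (b : ℕ) (hb : P.B = b) : NPHard (fun A : Inst => ∃ S : Finset ℤ,
    S ⊆ A.1.toFinset ∧ Free P.L.a S ∧ P.q * A.1.length ≤ P.q * S.card + P.g * A.1.length) := by
  have hD : P.D.toList.Nodup ∧ 0 ∉ P.D.toList :=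
    ⟨Finset.nodup_toList _, by rw [Finset.mem_toList]; exact P.hD0⟩
  have hval : ∀ x, (if (lf P b x).Nodup ∧ 0 ∉ lf P b x then lf P b x else P.D.toList).Nodup ∧
      0 ∉ (if (lf P b x).Nodup ∧ 0 ∉ lf P b x then lf P b x else P.D.toList) := by
    intro x
    split_ifs with h
    · exact h
    · exact hD
  refine NPHard.of_vc (fun x => (⟨_, hval x⟩ : Inst)) (PT.subtype ?_ _) ?_
  · have h := lf_pt P b
    fun_prop
  · intro n es K hes hnd hK
    have h1 := lf_eq P b hb n es K hes hK
    have h2 : (lf P b (n, es, K)).Nodup ∧ 0 ∉ lf P b (n, es, K) := by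
      rw [h1]
      exact ⟨Par.nodup (fun e he => (hes e he).1) hnd, Par.zero_notMem fun e he => (hes e he).1⟩
    simp only [if_pos h2]
    rw [h1]
    constructor
    · rintro ⟨Sv, -, h3, h4⟩
      exact Par.fwd (fun e he => (hes e he).1) hnd Sv h3 h4
    · rintro ⟨S, h3, h4, h5⟩
      exact Par.bwd hes hnd S h3 h4 h5

end Pool.Agent.V8H41.LF
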